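import Mathlib
import Pool.Agent.TH172.ER.Defs

/-!
# Curves on the surfaces `E × B`

`E = ℂ / Λ` is a complex elliptic curve, `Λ` the lattice of a period pair `L`, and `B` is a smooth
projective curve, given with a finite morphism `β : B → ℙ¹`. `Torus L = ℂ ⧸ Λ` is the set of points
of `E`, `rep t` is a representative of `t`; the curves `EllipticCurveOn L` on `E × ℙ¹`, that is, the
images `Γ` of the maps `t ↦ (m t + c, f t)`, `m ≥ 1`, `f` an elliptic function, which are injective
outside a finite set, and the multiplicity `valueOrder f z v` with which `f` takes the value `v` at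
`z`, are defined in `Pool.Agent.TH172.ER.Defs`.
-/

open scoped OnePoint
open H4EP Pool.Agent.TH172.ER

namespace Pool.Agent.Y3.VJ

/-- A finite morphism `β : B → ℙ¹` of degree `k` of a smooth projective complex curve `B`, given by
the set `Pt` of points of `B`, the values of `β` and the ramification indices `e`. The coordinate of
`ℙ¹ = ℂ ∪ {∞}` is chosen so that `β` is unramified over `∞`. -/
structure Cover where
  /-- the points of `B` -/
  Pt : Type
  /-- the morphism -/
  β : Pt → OnePoint ℂ
  /-- the ramification indices of `β` -/
  e : Pt → ℕ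
  /-- the degree of `β` -/
  k : ℕ
  /-- the fibres of `β` -/
  fibre : OnePoint ℂ → Finset Pt
  /-- the ramified points -/
  ram : Finset Pt
  mem_fibre : ∀ v y, y ∈ fibre v ↔ β y = v
  mem_ram : ∀ y, y ∈ ram ↔ 1 < e y
  e_pos : ∀ y, 1 ≤ e y
  k_pos : 1 ≤ k
  sum_e : ∀ v, ∑ y ∈ fibre v, e y = k
  unramified_infty : ∀ y, β y = ∞ → e y = 1

/-- The genus `b` of `B`, given by the Riemann-Hurwitz formula `2 b - 2 = - 2 k + ∑ (e y - 1)`. -/
noncomputable def Cover.genus (B : Cover) : ℚ := 1 - B.k + (∑ y ∈ B.ram, ((B.e y : ℚ) - 1)) / 2

/-- A curve `C = (id × β)⁻¹ (Γ)` on the surface `E × B`, where `Γ` is the curve of genus one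
`{(m t + c, f t)}` on `E × ℙ¹`, the elliptic function `f` is not constant (it has poles) and is not
ramified over the branch points of `β`. Then the fibre
product `E ×_{ℙ¹} B = {(t, y) : f t = β y}` is a smooth curve, and it is irreducible, as the Galois
closures of the coverings `f : E → ℙ¹` and `β : B → ℙ¹` are ramified over disjoint sets, so that
they are linearly disjoint. It is the normalisation of `C` by the map `(t, y) ↦ (m t + c, y)`. -/
structure CurveOn (L : PeriodPair) (B : Cover) extends EllipticCurveOn L where
  degree_pos : 0 < toEllipticCurveOn.sectionDegree ∞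
  transversal : ∀ t : Torus L, ∀ y, 1 < B.e y → valueOrder f (rep t) (B.β y) ≤ 1

namespace CurveOn

variable {L : PeriodPair} {B : Cover} (C : CurveOn L B)

/-- The geometric genus `g` of `C`, given by the Riemann-Hurwitz formula for the covering
`E ×_{ℙ¹} B → E`: `2 g - 2 = ∑ (e - gcd (e, o))`, the sum over the `t ∈ E` and `y ∈ B` with
`f t = β y`, `e` the ramification index of `β` at `y` and `o` the one of `f` at `t`; there are
`gcd (e, o)` points over `(t, y)`, all of ramification index `e / gcd (e, o)` over `t`. (For
`f t ≠ β y` the multiplicity `o` with which `f` takes the value `β y` at `t` is `0`, and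
`gcd (e, 0) = e`.) -/
noncomputable def genus : ℚ :=
  1 + (∑ᶠ t : Torus L, ∑ y ∈ B.ram,
    ((B.e y : ℚ) - (Nat.gcd (B.e y) (valueOrder C.f (rep t) (B.β y)) : ℚ))) / 2

/-- The multiplicity of `C` at the point `p` of `E × B`: the sum of the multiplicities of the
branches of `C` at `p`. Over a point `(t, y)` with `f t = β y` there are `gcd (e, o)` branches of
multiplicity `min (e, o) / gcd (e, o)`, where `e` is the ramification index of `β` at `y` and `o`
the one of `f` at `t`. -/
noncomputable def mult (p : Torus L × B.Pt) : ℕ :=
  ∑ᶠ t : {t : Torus L // C.m • t + C.c = p.1}, min (B.e p.2) (valueOrder C.f (rep t.1) (B.β p.2))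

/-- The canonical degree `K_X · C` of the strict transform of `C` on the blow-up `X` of `E × B` at
the points of the finite set `S`. The canonical divisor of `E × B` is numerically `(2 b - 2)` times
the curve `E × {y}`, and `C · (E × {y})` is the degree of `f`. -/
noncomputable def canonicalDegree (S : Finset (Torus L × B.Pt)) : ℚ :=
  (2 * B.genus - 2) * C.sectionDegree ∞ + ∑ p ∈ S, (C.mult p : ℚ)

end CurveOn

end Pool.Agent.Y3.VJ
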