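import Mathlib
import Pool.Agent.Y442.EC.Cv
import Pool.Agent.Y442.EC.Mk

/-!
An elliptic function is determined by its divisor, up to a constant.
-/

open Filter Topology
open H4EP H667R3 Pool.Agent.TH172.ER
open scoped OnePoint

noncomputable section

namespace Pool.Agent.Y3.VJ

variable {L : PeriodPair}

theorem top_all {g : ℂ → ℂ} (hm : Meromorphic g) {z₀ : ℂ} (h : meromorphicOrderAt g z₀ = ⊤) (z : ℂ) :
    meromorphicOrderAt g z = ⊤ := by
  by_contra hc
  exact MeromorphicOn.meromorphicOrderAt_ne_top_of_isPreconnected (U := Set.univ) (x := z)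
    (fun x _ => hm x) isPreconnected_univ (Set.mem_univ _) (Set.mem_univ _) hc h

/-- an elliptic function without zeros and poles is constant -/
theorem const_of_order_zero {q : ℂ → ℂ} (hm : Meromorphic q)
    (hper : ∀ z, ∀ l ∈ L.lattice, q (z + l) = q z) (h0 : ∀ z, meromorphicOrderAt q z = 0) :
    ∃ c : ℂ, c ≠ 0 ∧ ∀ z, q =ᶠ[𝓝[≠] z] fun _ => c := by
  obtain ⟨c, hc, hlim⟩ := (tendsto_ne_zero_iff_meromorphicOrderAt_eq_zero (hm 0)).2 (h0 0)
  refine ⟨c, hc, ?_⟩
  have hpm : Meromorphic (lin q c 1) := lin_mero hm c 1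
  have hpp : ∀ z, ∀ l ∈ L.lattice, lin q c 1 (z + l) = lin q c 1 z := lin_per hper c 1
  have e1 : lin q c 1 = fun w => q w - c := lin_const q c
  have hlim0 : Tendsto (lin q c 1) (𝓝[≠] (0:ℂ)) (𝓝 0) := by
    rw [e1]
    have := hlim.sub (tendsto_const_nhds (x := c))
    rwa [sub_self] at this
  have hpos : 0 < meromorphicOrderAt (lin q c 1) 0 :=
    (tendsto_zero_iff_meromorphicOrderAt_pos (hpm 0)).1 hlim0
  have hnn : ∀ z, 0 ≤ meromorphicOrderAt (lin q c 1) z := by
    intro z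
    have h1 := ord_comb q (fun _ => (1:ℂ)) z 1 (-c) (hm z) (MeromorphicAt.const _ _)
    rw [h0 z, ord_one, min_self] at h1
    have e2 : (fun w => (1:ℂ) * q w + -c * 1) = lin q c 1 := by
      funext w
      simp [lin, sub_eq_add_neg]
    rwa [e2] at h1
  by_cases htop : ∃ z₀, meromorphicOrderAt (lin q c 1) z₀ = ⊤
  · obtain ⟨z₀, hz₀⟩ := htop
    intro z
    have h1 := top_all hpm hz₀ z
    rw [meromorphicOrderAt_eq_top_iff] at h1
    filter_upwards [h1] with w hw
    rw [e1] at hw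
    exact sub_eq_zero.1 hw
  · exfalso
    push Not at htop
    have h1 := deg_zero (L := L) hpm hpp htop
    have hfin : (Function.support (od (lin q c 1) : Torus L → ℤ)).Finite := od_finite hpm hpp htop
    have hge : ∀ t : Torus L, 0 ≤ od (lin q c 1) t := by
      intro t
      have h2 := hnn (rep t)
      have h3 := oz_eq (htop (rep t))
      rw [h3] at h2
      have h4 : (0 : ℤ) ≤ oz (lin q c 1) (rep t) := by exact_mod_cast h2
      exact h4
    have hgt : 0 < od (lin q c 1) (cl L 0) := by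
      have h2 := ord_eq hpp htop (L := L) 0
      rw [h2] at hpos
      exact_mod_cast hpos
    have h5 : 0 < ∑ᶠ t : Torus L, od (lin q c 1) t :=
      finsum_pos hge ⟨cl L 0, hgt⟩ hfin
    omega

/-- two elliptic functions with the same divisor -/
theorem ratio_const {g h : ℂ → ℂ} (hg : Meromorphic g) (hh : Meromorphic h)
    (hgp : ∀ z, ∀ l ∈ L.lattice, g (z + l) = g z) (hhp : ∀ z, ∀ l ∈ L.lattice, h (z + l) = h z)
    (htop : ∀ z, meromorphicOrderAt h z ≠ ⊤)
    (he : ∀ z, meromorphicOrderAt g z = meromorphicOrderAt h z) :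
    ∃ c : ℂ, c ≠ 0 ∧ ∀ z, g =ᶠ[𝓝[≠] z] fun w => c * h w := by
  obtain ⟨c, hc, h1⟩ := const_of_order_zero (L := L) (q := g / h) (fun z => (hg z).div (hh z))
    (by
      intro z l hl
      rw [Pi.div_apply, Pi.div_apply, hgp z l hl, hhp z l hl])
    (by
      intro z
      rw [meromorphicOrderAt_div (hg z) (hh z), he]
      exact LinearOrderedAddCommGroupWithTop.sub_self_eq_zero_of_ne_top (htop z))
  refine ⟨c, hc, fun z => ?_⟩
  have h2 : ∀ᶠ w in 𝓝[≠] z, h w ≠ 0 := by
    have := (meromorphicOrderAt_ne_top_iff_eventually_ne_zero (hh z)).1 (htop z)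
    exact this
  filter_upwards [h1 z, h2] with w hw hw2
  rw [Pi.div_apply, div_eq_iff hw2] at hw
  exact hw

/-- equality near a point of two analytic functions -/
theorem eq_of_ev {g h : ℂ → ℂ} {z : ℂ} (hg : ContinuousAt g z) (hh : ContinuousAt h z)
    (he : g =ᶠ[𝓝[≠] z] h) : g z = h z := by
  have h1 : Tendsto g (𝓝[≠] z) (𝓝 (g z)) := hg.tendsto.mono_left nhdsWithin_le_nhds
  have h2 : Tendsto h (𝓝[≠] z) (𝓝 (h z)) := hh.tendsto.mono_left nhdsWithin_le_nhds
  exact tendsto_nhds_unique (h1.congr' he) h2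

theorem ev_nhds {g h : ℂ → ℂ} {z : ℂ} (hg : ContinuousAt g z) (hh : ContinuousAt h z)
    (he : g =ᶠ[𝓝[≠] z] h) : g =ᶠ[𝓝 z] h := by
  have h1 := eq_of_ev hg hh he
  rw [EventuallyEq, eventually_nhdsWithin_iff] at he
  filter_upwards [he] with w hw
  by_cases hwz : w = z
  · rw [hwz]; exact h1
  · exact hw hwz

end Pool.Agent.Y3.VJ
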