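import Mathlib
import Pool.Agent.Y3.VJ.Un

/-!
The elliptic function `h` of degree two with zeros at `0`, `D = (ω₁ + ω₂) / 2` and poles at
`ω₁ / 2`, `ω₂ / 2`, and its symmetries.
-/

open Filter Topology
open H4EP H667R3 Pool.Agent.TH172.ER Pool.Agent.Y442.EC
open scoped OnePoint

noncomputable section

namespace Pool.Agent.Y3.VJ

variable (L : PeriodPair)

def zD : ℂ := (L.ω₁ + L.ω₂) / 2
def zA : ℂ := L.ω₁ / 2
def zB : ℂ := L.ω₂ / 2

theorem half_zero (p q : ℤ) :
    cl L (((p : ℂ) * L.ω₁ + (q : ℂ) * L.ω₂) / 2) = 0 ↔ (2 : ℤ) ∣ p ∧ (2 : ℤ) ∣ q := by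
  have h := frac_zero L p q (N := 2) two_ne_zero
  push_cast at h
  exact h

theorem cl_zD_ne : cl L (zD L) ≠ 0 := by
  have h := half_zero L 1 1
  push_cast at h
  rw [one_mul, one_mul] at h
  rw [zD]
  intro h1
  have := (h.1 h1).1
  omega

theorem cl_zA_ne : cl L (zA L) ≠ 0 := by
  have h := half_zero L 1 0
  push_cast at h
  rw [one_mul, zero_mul, add_zero] at h
  rw [zA]
  intro h1
  have := (h.1 h1).1
  omega

theorem cl_zB_ne : cl L (zB L) ≠ 0 := by
  have h := half_zero L 0 1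
  push_cast at h
  rw [one_mul, zero_mul, zero_add] at h
  rw [zB]
  intro h1
  have := (h.1 h1).2
  omega

theorem zD_eq : zD L = zA L + zB L := by
  rw [zD, zA, zB]
  ring

theorem two_zA : cl L (zA L + zA L) = 0 := by
  rw [cl_eq_zero]
  have : zA L + zA L = L.ω₁ := by rw [zA]; ring
  rw [this]
  exact L.ω₁_mem_lattice

theorem two_zB : cl L (zB L + zB L) = 0 := by
  rw [cl_eq_zero]
  have : zB L + zB L = L.ω₂ := by rw [zB]; ring
  rw [this]
  exact L.ω₂_mem_lattice

/-- the points of order two -/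
def tD : Torus L := cl L (zD L)
def tA : Torus L := cl L (zA L)
def tB : Torus L := cl L (zB L)

theorem AA : tA L + tA L = 0 := by rw [tA, ← cl_add, two_zA]
theorem BB : tB L + tB L = 0 := by rw [tB, ← cl_add, two_zB]
theorem AB : tA L + tB L = tD L := by rw [tA, tB, ← cl_add, ← zD_eq, tD]
theorem DD : tD L + tD L = 0 := by
  rw [← AB]
  have : tA L + tB L + (tA L + tB L) = (tA L + tA L) + (tB L + tB L) := by abel
  rw [this, AA, BB, add_zero]

theorem negD : - tD L = tD L := neg_eq_of_add_eq_zero_left (DD L)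
theorem negA : - tA L = tA L := neg_eq_of_add_eq_zero_left (AA L)
theorem negB : - tB L = tB L := neg_eq_of_add_eq_zero_left (BB L)

theorem D0 : tD L ≠ 0 := cl_zD_ne L
theorem A0 : tA L ≠ 0 := cl_zA_ne L
theorem B0 : tB L ≠ 0 := cl_zB_ne L

theorem A_ne_B : tA L ≠ tB L := by
  intro h
  apply D0 L
  rw [← AB, ← h, AA]

theorem A_ne_D : tA L ≠ tD L := by
  intro h
  apply B0 L
  have h1 := AB L
  rw [← h] at h1
  exact left_eq_add.1 h1.symm

theorem B_ne_D : tB L ≠ tD L := by
  intro h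
  apply A0 L
  have h1 := AB L
  rw [← h] at h1
  exact right_eq_add.1 h1.symm

theorem AD : tA L + tD L = tB L := by
  rw [← AB, ← add_assoc, AA, zero_add]

theorem BD : tB L + tD L = tA L := by
  rw [← AB, add_comm (tA L), ← add_assoc, BB, zero_add]

/-- the function `h` -/
def E0 : EF L := mk ![0, zD L] ![zA L, zB L]
  (by
    intro i j h
    fin_cases i <;> fin_cases j <;> simp_all
    · exact D0 L (h.symm.trans (cl_eq_zero.2 (Submodule.zero_mem _)))
    · exact D0 L (h.trans (cl_eq_zero.2 (Submodule.zero_mem _))))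
  (by
    intro i j h
    fin_cases i <;> fin_cases j <;> simp_all
    · exact A_ne_B L h
    · exact A_ne_B L h.symm)
  (by
    intro i j h
    have h0 : cl L 0 = 0 := cl_eq_zero.2 (Submodule.zero_mem _)
    fin_cases i <;> fin_cases j <;> simp_all
    · exact A0 L h.symm
    · exact B0 L h.symm
    · exact A_ne_D L h.symm
    · exact B_ne_D L h.symm)
  (by
    rw [Fin.sum_univ_two, Fin.sum_univ_two]
    simp [zD_eq])

theorem mem_Z {t : Torus L} : t ∈ (E0 L).Z ↔ t = 0 ∨ t = tD L := by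
  classical
  have h0 : cl L 0 = 0 := cl_eq_zero.2 (Submodule.zero_mem _)
  unfold E0 Y442.EC.mk
  rw [Finset.mem_image]
  constructor
  · rintro ⟨i, -, rfl⟩
    fin_cases i
    · left; exact h0
    · right; rfl
  · rintro (rfl | rfl)
    · exact ⟨0, Finset.mem_univ _, h0⟩
    · exact ⟨1, Finset.mem_univ _, rfl⟩

theorem mem_W {t : Torus L} : t ∈ (E0 L).W ↔ t = tA L ∨ t = tB L := by
  classical
  unfold E0 Y442.EC.mk
  rw [Finset.mem_image]
  constructor
  · rintro ⟨i, -, rfl⟩
    fin_cases i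
    · left; rfl
    · right; rfl
  · rintro (rfl | rfl)
    · exact ⟨0, Finset.mem_univ _, rfl⟩
    · exact ⟨1, Finset.mem_univ _, rfl⟩

theorem card_Z : (E0 L).Z.card = 2 := by
  classical
  have : (E0 L).Z = {0, tD L} := by
    ext t
    rw [mem_Z, Finset.mem_insert, Finset.mem_singleton]
  rw [this, Finset.card_pair (D0 L).symm]

theorem card_W : (E0 L).W.card = 2 := by
  classical
  have : (E0 L).W = {tA L, tB L} := by
    ext t
    rw [mem_W, Finset.mem_insert, Finset.mem_singleton]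
  rw [this, Finset.card_pair (A_ne_B L)]

/-- the points of order two -/
theorem two_tors {t : Torus L} : 2 • t = 0 ↔ t ∈ (E0 L).Z ∨ t ∈ (E0 L).W := by
  classical
  constructor
  · intro h
    have h1 : (E0 L).Z ∪ (E0 L).W = fib 2 (0 : Torus L) := by
      apply Finset.eq_of_subset_of_card_le
      · intro s hs
        rw [mem_fib two_ne_zero]
        rw [Finset.mem_union, mem_Z, mem_W] at hs
        rw [two_nsmul]
        rcases hs with (rfl | rfl) | (rfl | rfl)
        · rw [add_zero]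
        · exact DD L
        · exact AA L
        · exact BB L
      · rw [card_fib two_ne_zero, Finset.card_union_of_disjoint (E0 L).disj, card_Z, card_W]
        norm_num
    rw [← Finset.mem_union, h1, mem_fib two_ne_zero]
    exact h
  · rw [mem_Z, mem_W, two_nsmul]
    rintro ((rfl | rfl) | (rfl | rfl))
    · rw [add_zero]
    · exact DD L
    · exact AA L
    · exact BB L

/-- a fourth root of unity that acts on `E` and fixes `D` -/
structure U4 (ε : ℂ) : Prop where
  pow : ε ^ 4 = 1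
  lat : ∀ l ∈ L.lattice, ε * l ∈ L.lattice
  hD : ε * zD L - zD L ∈ L.lattice

theorem U4.one : U4 L 1 where
  pow := one_pow _
  lat := fun l hl => by rwa [one_mul]
  hD := by rw [one_mul, sub_self]; exact Submodule.zero_mem _

theorem U4.neg_one : U4 L (-1) where
  pow := by norm_num
  lat := fun l hl => by rw [neg_one_mul]; exact Submodule.neg_mem _ hl
  hD := by
    have : (-1) * zD L - zD L = -(L.ω₁ + L.ω₂) := by rw [zD]; ring
    rw [this]
    exact Submodule.neg_mem _ (Submodule.add_mem _ L.ω₁_mem_lattice L.ω₂_mem_lattice)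

theorem int_smul_mem (n : ℤ) {l : ℂ} (hl : l ∈ L.lattice) : (n : ℂ) * l ∈ L.lattice := by
  have := L.lattice.smul_mem n hl
  rwa [zsmul_eq_mul] at this

theorem U4.I (h : L.ω₂ = Complex.I * L.ω₁) : U4 L Complex.I where
  pow := Complex.I_pow_four
  lat := by
    intro l hl
    rw [PeriodPair.mem_lattice] at hl
    obtain ⟨m, n, rfl⟩ := hl
    have e : Complex.I * ((m : ℂ) * L.ω₁ + (n : ℂ) * L.ω₂)
        = (m : ℂ) * L.ω₂ + ((-n : ℤ) : ℂ) * L.ω₁ := by
      rw [h]
      push_cast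
      linear_combination (n : ℂ) * L.ω₁ * Complex.I_mul_I
    rw [e]
    exact Submodule.add_mem _ (int_smul_mem L _ L.ω₂_mem_lattice)
      (int_smul_mem L _ L.ω₁_mem_lattice)
  hD := by
    have e : Complex.I * zD L - zD L = -L.ω₁ := by
      rw [zD, h]
      linear_combination (L.ω₁ / 2) * Complex.I_mul_I
    rw [e]
    exact Submodule.neg_mem _ L.ω₁_mem_lattice

theorem U4.mul {ε δ : ℂ} (h : U4 L ε) (h' : U4 L δ) : U4 L (ε * δ) where
  pow := by rw [mul_pow, h.pow, h'.pow, one_mul]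
  lat := fun l hl => by rw [mul_assoc]; exact h.lat _ (h'.lat _ hl)
  hD := by
    have e : ε * δ * zD L - zD L = ε * (δ * zD L - zD L) + (ε * zD L - zD L) := by ring
    rw [e]
    exact Submodule.add_mem _ (h.lat _ h'.hD) h.hD

variable {L}

namespace U4

variable {ε : ℂ} (U : U4 L ε)

include U

theorem ne : ε ≠ 0 := by
  rintro rfl
  have := U.pow
  norm_num at this

theorem lat_iff {z : ℂ} : ε * z ∈ L.lattice ↔ z ∈ L.lattice := by
  refine ⟨fun h => ?_, U.lat z⟩
  have h1 := U.lat _ (U.lat _ (U.lat _ h))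
  have e : ε * (ε * (ε * (ε * z))) = z := by linear_combination z * U.pow
  rwa [e] at h1

theorem cl_zero {z : ℂ} : cl L (ε * z) = 0 ↔ cl L z = 0 := by
  rw [cl_eq_zero, cl_eq_zero, U.lat_iff]

theorem cl_D {z : ℂ} : cl L (ε * z) = tD L ↔ cl L z = tD L := by
  rw [tD, cl_eq, cl_eq, ← U.lat_iff (z := z - zD L)]
  have e : ε * (z - zD L) = (ε * z - zD L) - (ε * zD L - zD L) := by ring
  rw [e]
  constructor
  · intro h; exact Submodule.sub_mem _ h U.hD
  · intro h
    have := Submodule.add_mem _ h U.hD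
    rwa [sub_add_cancel] at this

theorem cl_two {z : ℂ} : 2 • cl L (ε * z) = 0 ↔ 2 • cl L z = 0 := by
  rw [← cl_nmul, ← cl_nmul]
  have e : ((2:ℕ) : ℂ) * (ε * z) = ε * (((2:ℕ) : ℂ) * z) := by ring
  rw [e, U.cl_zero]

theorem Z_iff {z : ℂ} : cl L (ε * z) ∈ (E0 L).Z ↔ cl L z ∈ (E0 L).Z := by
  rw [mem_Z, mem_Z, U.cl_zero, U.cl_D]

theorem W_iff {z : ℂ} : cl L (ε * z) ∈ (E0 L).W ↔ cl L z ∈ (E0 L).W := by
  have h1 : ∀ t : Torus L, t ∈ (E0 L).W ↔ (2 • t = 0 ∧ t ∉ (E0 L).Z) := by
    intro t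
    rw [two_tors]
    constructor
    · intro h
      exact ⟨Or.inr h, fun h' => Finset.disjoint_left.1 (E0 L).disj h' h⟩
    · rintro ⟨h | h, h'⟩
      · exact absurd h h'
      · exact h
  rw [h1, h1, U.cl_two, U.Z_iff]

end U4

theorem E0_order_ne_top (z : ℂ) : meromorphicOrderAt (E0 L).h z ≠ ⊤ := by
  rw [(E0 L).ord]
  exact WithTop.coe_ne_top

theorem E0_ana_zero : AnalyticAt ℂ (E0 L).h 0 := by
  apply (E0 L).ana
  have h0 : cl L 0 = 0 := cl_eq_zero.2 (Submodule.zero_mem _)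
  rw [h0, mem_W]
  rintro (h | h)
  · exact A0 L h.symm
  · exact B0 L h.symm

theorem E0_zero : (E0 L).h 0 = 0 ∧ deriv (E0 L).h 0 ≠ 0 := by
  have h0 : cl L 0 = 0 := cl_eq_zero.2 (Submodule.zero_mem _)
  have h1 := (E0 L).ord 0
  have hana : AnalyticAt ℂ (E0 L).h 0 := E0_ana_zero
  rw [h0, ind_Z (E0 L).disj (by rw [mem_Z]; exact Or.inl rfl), hana.meromorphicOrderAt_eq] at h1
  have h2 : analyticOrderAt (E0 L).h 0 = 1 := by
    rcases hh : analyticOrderAt (E0 L).h 0 with _ | n
    · rw [hh] at h1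
      exact absurd h1 (by exact WithTop.top_ne_coe)
    · rw [hh] at h1
      have h3 : ((n : ℤ) : WithTop ℤ) = ((1 : ℤ) : WithTop ℤ) := h1
      have h4 : n = 1 := by exact_mod_cast h3
      subst h4
      rfl
  have h3 : (E0 L).h 0 = 0 := by
    by_contra hc
    rw [hana.analyticOrderAt_eq_zero.2 hc] at h2
    exact zero_ne_one h2
  refine ⟨h3, ?_⟩
  have hm : meromorphicOrderAt (E0 L).h 0 = ((1 : ℤ) : WithTop ℤ) := by
    rw [(E0 L).ord, h0, ind_Z (E0 L).disj (by rw [mem_Z]; exact Or.inl rfl)]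
  have h4 := meromorphicOrderAt_deriv_eq_sub_one (by norm_num) hm
  intro hd
  have h5 : 0 < oz (deriv (E0 L).h) 0 := by
    refine ana_pos hana.deriv hd ?_
    rw [h4]
    exact WithTop.coe_ne_top
  rw [oz, h4] at h5
  simp at h5

end Pool.Agent.Y3.VJ
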