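import Mathlib
import Pool.Agent.Y3.VJ.H

/-!
The functional equations of `h`.
-/

open Filter Topology
open H4EP H667R3 Pool.Agent.TH172.ER Pool.Agent.Y442.EC
open scoped OnePoint

noncomputable section

namespace Pool.Agent.Y3.VJ

variable {L : PeriodPair}

theorem ind_congr {Z W : Finset (Torus L)} {s t : Torus L} (h1 : s ∈ Z ↔ t ∈ Z)
    (h2 : s ∈ W ↔ t ∈ W) : ind Z W s = ind Z W t := by
  classical
  unfold ind
  simp only [h1, h2]

theorem mul_ana (ε : ℂ) (z : ℂ) : AnalyticAt ℂ (fun z : ℂ => ε * z) z :=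
  analyticAt_const.mul analyticAt_id

theorem deriv_mul_ne {ε : ℂ} (h : ε ≠ 0) (z : ℂ) : deriv (fun z : ℂ => ε * z) z ≠ 0 := by
  rw [deriv_const_mul_field]
  simpa using h

/-- `h (ε z) = ε h (z)` -/
theorem U4.h_mul {ε : ℂ} (U : U4 L ε) {z : ℂ} (hz : cl L z ∉ (E0 L).W) :
    (E0 L).h (ε * z) = ε * (E0 L).h z := by
  have hm : Meromorphic (fun z : ℂ => (E0 L).h (ε * z)) := fun z =>
    (meromorphicAt_comp_iff_of_deriv_ne_zero (mul_ana ε z) (deriv_mul_ne U.ne z)).2 ((E0 L).mero _)
  have hord : ∀ z, meromorphicOrderAt (fun z : ℂ => (E0 L).h (ε * z)) z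
      = meromorphicOrderAt (E0 L).h z := by
    intro z
    have h1 : (fun z : ℂ => (E0 L).h (ε * z)) = (E0 L).h ∘ (fun z : ℂ => ε * z) := rfl
    rw [h1, meromorphicOrderAt_comp_of_deriv_ne_zero (mul_ana ε z) (deriv_mul_ne U.ne z),
      (E0 L).ord, (E0 L).ord, ind_congr U.Z_iff U.W_iff]
  obtain ⟨c, hc, hev⟩ := ratio_const (L := L) hm (E0 L).mero
    (by
      intro z l hl
      change (E0 L).h (ε * (z + l)) = _
      rw [mul_add, (E0 L).per _ _ (U.lat l hl)])
    (E0 L).per E0_order_ne_top hord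
  have hana : ∀ z, cl L z ∉ (E0 L).W → AnalyticAt ℂ (fun z : ℂ => (E0 L).h (ε * z)) z := by
    intro z hz
    exact AnalyticAt.fun_comp ((E0 L).ana _ (by rwa [U.W_iff])) (mul_ana ε z)
  have h0 : cl L 0 ∉ (E0 L).W := by
    have h0 : cl L 0 = 0 := cl_eq_zero.2 (Submodule.zero_mem _)
    rw [h0, mem_W]
    rintro (h | h)
    · exact A0 L h.symm
    · exact B0 L h.symm
  have hce : c = ε := by
    have h1 := ev_nhds (hana 0 h0).continuousAt
      ((analyticAt_const.mul E0_ana_zero).continuousAt) (hev 0)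
    have h2 := h1.deriv_eq
    have h3 : deriv (fun z : ℂ => (E0 L).h (ε * z)) 0 = ε * deriv (E0 L).h 0 := by
      have := deriv_comp_mul_left ε (E0 L).h 0
      simpa [mul_zero, smul_eq_mul] using this
    have h4 : deriv (fun w : ℂ => c * (E0 L).h w) 0 = c * deriv (E0 L).h 0 :=
      deriv_const_mul_field c
    have h2' : ε * deriv (E0 L).h 0 = c * deriv (E0 L).h 0 := h3.symm.trans (h2.trans h4)
    replace h2 := h2'
    exact (mul_right_cancel₀ E0_zero.2 h2).symm
  have h5 := eq_of_ev (hana z hz).continuousAt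
    ((analyticAt_const.mul ((E0 L).ana z hz)).continuousAt) (hev z)
  rw [hce] at h5
  exact h5

/-- `h (z + D) = - h (z)` -/
theorem h_D {z : ℂ} (hz : cl L z ∉ (E0 L).W) :
    (E0 L).h (z + zD L) = - (E0 L).h z := by
  have hm : Meromorphic (fun z : ℂ => (E0 L).h (z + zD L)) := (E0 L).hc_mero (zD L)
  have hZ : ∀ t : Torus L, t + tD L ∈ (E0 L).Z ↔ t ∈ (E0 L).Z := by
    intro t
    rw [mem_Z, mem_Z]
    constructor
    · rintro (h | h)
      · right
        rw [← negD]
        exact eq_neg_of_add_eq_zero_left h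
      · left
        exact add_eq_right.1 h
    · rintro (rfl | rfl)
      · right; rw [zero_add]
      · left; exact DD L
  have hW : ∀ t : Torus L, t + tD L ∈ (E0 L).W ↔ t ∈ (E0 L).W := by
    intro t
    rw [mem_W, mem_W]
    constructor
    · rintro (h | h)
      · right
        rw [← AD, ← h, add_assoc, DD, add_zero]
      · left
        rw [← BD, ← h, add_assoc, DD, add_zero]
    · rintro (rfl | rfl)
      · right; exact AD L
      · left; exact BD L
  have hord : ∀ z, meromorphicOrderAt (fun z : ℂ => (E0 L).h (z + zD L)) z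
      = meromorphicOrderAt (E0 L).h z := by
    intro z
    rw [(E0 L).hc_ord, (E0 L).ord]
    change ((ind (E0 L).Z (E0 L).W (cl L z + tD L) : ℤ) : WithTop ℤ) = _
    rw [ind_congr (hZ (cl L z)) (hW (cl L z))]
  obtain ⟨c, hc, hev⟩ := ratio_const (L := L) hm (E0 L).mero
    (by
      intro z l hl
      change (E0 L).h (z + l + zD L) = _
      rw [show z + l + zD L = z + zD L + l by ring, (E0 L).per _ _ hl])
    (E0 L).per E0_order_ne_top hord
  have hana : ∀ z, cl L z ∉ (E0 L).W → AnalyticAt ℂ (fun z : ℂ => (E0 L).h (z + zD L)) z := by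
    intro z hz
    have hg : AnalyticAt ℂ (fun z : ℂ => z + zD L) z := analyticAt_id.add analyticAt_const
    exact AnalyticAt.fun_comp ((E0 L).ana _ (by rw [cl_add]; exact fun h => hz ((hW _).1 h))) hg
  have key : ∀ z, cl L z ∉ (E0 L).W → (E0 L).h (z + zD L) = c * (E0 L).h z := fun z hz =>
    eq_of_ev (hana z hz).continuousAt
      ((analyticAt_const.mul ((E0 L).ana z hz)).continuousAt) (hev z)
  -- the value at `- D / 2`
  have hq : cl L (zD L / 2) ∉ (E0 L).Z ∧ cl L (zD L / 2) ∉ (E0 L).W := by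
    have h1 : ¬ (2 • cl L (zD L / 2) = 0) := by
      rw [← cl_nmul]
      have e : ((2:ℕ) : ℂ) * (zD L / 2) = zD L := by push_cast; ring
      rw [e]
      exact D0 L
    rw [two_tors, not_or] at h1
    exact h1
  have hq' : cl L (-(zD L / 2)) ∉ (E0 L).W := by
    have := (U4.neg_one L).W_iff (z := zD L / 2)
    rw [neg_one_mul] at this
    exact fun h => hq.2 (this.1 h)
  have h1 := key (-(zD L / 2)) hq'
  have e : -(zD L / 2) + zD L = zD L / 2 := by ring
  have h2 := (U4.neg_one L).h_mul hq.2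
  rw [neg_one_mul, neg_one_mul] at h2
  rw [e, h2] at h1
  have h3 : (E0 L).h (zD L / 2) ≠ 0 := (E0 L).ne_zero hq.1 hq.2
  have hc1 : c = -1 := by
    have h4 : (E0 L).h (zD L / 2) * (1 + c) = 0 := by linear_combination h1
    have h5 := (mul_eq_zero.1 h4).resolve_left h3
    linear_combination h5
  rw [key z hz, hc1]
  ring

end Pool.Agent.Y3.VJ
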