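import Mathlib
import Pool.Agent.Y3.VJ.S

/-!
The points with `N t = ε t` and with `N t = D - ε t`.
-/

open Filter Topology
open H4EP H667R3 Pool.Agent.TH172.ER Pool.Agent.Y442.EC
open scoped OnePoint

noncomputable section

namespace Pool.Agent.Y3.VJ

variable {L : PeriodPair}

/-- the multiplier -/
def mm (N : ℕ) : ℕ := 2 * N * ((N - 1) * (N + 1) * (N ^ 2 + 1))

theorem smul_of_dvd {a m : ℕ} (h : a ∣ m) {t : Torus L} (ht : a • t = 0) : m • t = 0 := by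
  obtain ⟨c, rfl⟩ := h
  rw [mul_comm, mul_smul, ht, smul_zero]

theorem mm_pos {N : ℕ} (hN : 2 ≤ N) : 0 < mm N := by
  unfold mm
  have : 0 < N - 1 := by omega
  positivity

theorem two_zD : (2 : ℂ) * zD L ∈ L.lattice := by
  have : (2:ℂ) * zD L = L.ω₁ + L.ω₂ := by rw [zD]; ring
  rw [this]
  exact Submodule.add_mem _ L.ω₁_mem_lattice L.ω₂_mem_lattice

/-- the sets of solutions -/
structure KK (L : PeriodPair) (N : ℕ) (ε : ℂ) where
  K₁ : Finset (Torus L)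
  K₂ : Finset (Torus L)
  h1 : ∀ t ∈ K₁, N • t = cl L (ε * rep t)
  h2 : ∀ t ∈ K₂, N • t = tD L - cl L (ε * rep t)
  m1 : ∀ t ∈ K₁, mm N • t = 0
  m2 : ∀ t ∈ K₂, mm N • t = 0
  card : 2 * N ^ 2 + 2 ≤ K₁.card + K₂.card

theorem sq_aux {N : ℕ} (hN : 2 ≤ N) : 2 * N ^ 2 + 2 = (N - 1) ^ 2 + (N + 1) ^ 2 := by
  obtain ⟨k, rfl⟩ := Nat.exists_eq_add_of_le hN
  have : 2 + k - 1 = k + 1 := by omega
  rw [this]
  ring

theorem pred_smul {N : ℕ} (hN : 2 ≤ N) (t : Torus L) : N • t = (N - 1) • t + t := by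
  obtain ⟨k, rfl⟩ := Nat.exists_eq_add_of_le hN
  have : 2 + k - 1 = k + 1 := by omega
  rw [this, show 2 + k = k + 1 + 1 by omega, add_smul (k + 1) 1, one_smul]

def KK_one {N : ℕ} (hN : 2 ≤ N) : KK L N 1 where
  K₁ := fib (N - 1) 0
  K₂ := fib (N + 1) (tD L)
  h1 := by
    intro t ht
    rw [mem_fib (by omega)] at ht
    rw [one_mul, cl_rep, pred_smul hN, ht, zero_add]
  h2 := by
    intro t ht
    rw [mem_fib (by omega), add_smul, one_smul] at ht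
    rw [one_mul, cl_rep, ← ht]
    abel
  m1 := by
    intro t ht
    rw [mem_fib (by omega)] at ht
    exact smul_of_dvd ⟨2 * N * ((N + 1) * (N ^ 2 + 1)), by unfold mm; ring⟩ ht
  m2 := by
    intro t ht
    rw [mem_fib (by omega)] at ht
    refine smul_of_dvd (a := 2 * (N + 1)) ⟨N * ((N - 1) * (N ^ 2 + 1)), by unfold mm; ring⟩ ?_
    rw [mul_smul, ht, two_nsmul, DD]
  card := by
    rw [card_fib (by omega), card_fib (by omega), sq_aux hN]

def KK_neg {N : ℕ} (hN : 2 ≤ N) : KK L N (-1) where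
  K₁ := fib (N + 1) 0
  K₂ := fib (N - 1) (tD L)
  h1 := by
    intro t ht
    rw [mem_fib (by omega), add_smul, one_smul] at ht
    rw [neg_one_mul, cl_neg, cl_rep]
    exact eq_neg_of_add_eq_zero_left ht
  h2 := by
    intro t ht
    rw [mem_fib (by omega)] at ht
    rw [neg_one_mul, cl_neg, cl_rep, pred_smul hN, ht]
    abel
  m1 := by
    intro t ht
    rw [mem_fib (by omega)] at ht
    exact smul_of_dvd ⟨2 * N * ((N - 1) * (N ^ 2 + 1)), by unfold mm; ring⟩ ht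
  m2 := by
    intro t ht
    rw [mem_fib (by omega)] at ht
    refine smul_of_dvd (a := 2 * (N - 1)) ⟨N * ((N + 1) * (N ^ 2 + 1)), by unfold mm; ring⟩ ?_
    rw [mul_smul, ht, two_nsmul, DD]
  card := by
    rw [card_fib (by omega), card_fib (by omega), sq_aux hN]
    omega

/-- `(k ω₁ + e) (N + s ε) / (N ^ 2 + 1)` -/
def gp (L : PeriodPair) (N : ℕ) (δ e : ℂ) (k : ℕ) : ℂ :=
  ((k : ℂ) * L.ω₁ + e) * (N + δ) / ((N ^ 2 + 1 : ℕ) : ℂ)

theorem gp_inj {N : ℕ} {δ : ℂ} {s : ℤ} (hs : s = 1 ∨ s = -1) (hδ : δ * L.ω₁ = s * L.ω₂) (e : ℂ) :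
    Function.Injective (fun k : Fin (N ^ 2 + 1) => cl L (gp L N δ e k)) := by
  intro k l h
  simp only at h
  rw [cl_eq] at h
  have e1 : gp L N δ e k - gp L N δ e l
      = (((((k : ℕ) : ℤ) - ((l : ℕ) : ℤ)) * (N : ℤ) : ℤ) * L.ω₁
        + (((((k : ℕ) : ℤ) - ((l : ℕ) : ℤ)) * s : ℤ)) * L.ω₂) / ((N ^ 2 + 1 : ℕ) : ℂ) := by
    unfold gp
    rw [← sub_div]
    congr 1
    push_cast
    linear_combination (((k : ℕ) : ℂ) - ((l : ℕ) : ℂ)) * hδ
  rw [e1, frac_mem L _ _ (Nat.succ_ne_zero _)] at h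
  have h2 := h.2
  have h3 : ((N ^ 2 + 1 : ℕ) : ℤ) ∣ ((k : ℕ) : ℤ) - ((l : ℕ) : ℤ) := by
    rcases hs with rfl | rfl
    · rwa [mul_one] at h2
    · rw [mul_neg_one, dvd_neg] at h2
      exact h2
  have h4 : |((k : ℕ) : ℤ) - ((l : ℕ) : ℤ)| < ((N ^ 2 + 1 : ℕ) : ℤ) := by
    rw [abs_lt]
    have := k.2
    have := l.2
    constructor <;> omega
  have h5 := Int.eq_zero_of_abs_lt_dvd h3 h4
  ext
  omega

def KK_I {N : ℕ} {ε : ℂ} (hε : ε ^ 2 = -1) (U : U4 L ε) {s : ℤ} (hs : s = 1 ∨ s = -1)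
    (hδ : ε * L.ω₁ = s * L.ω₂) : KK L N ε := by
  classical
  have hN0 : ((N ^ 2 + 1 : ℕ) : ℂ) ≠ 0 := by exact_mod_cast Nat.succ_ne_zero (N ^ 2)
  have hc : ((N ^ 2 + 1 : ℕ) : ℂ) = (N : ℂ) ^ 2 + 1 := by push_cast; ring
  have key1 : ∀ k : ℕ, ((N : ℂ) - ε) * gp L N ε 0 k = (k : ℂ) * L.ω₁ := by
    intro k
    unfold gp
    rw [mul_div_assoc', div_eq_iff hN0, hc]
    linear_combination (-(k : ℂ) * L.ω₁) * hε
  have key2 : ∀ k : ℕ, ((N : ℂ) + ε) * gp L N (-ε) (zD L) k = (k : ℂ) * L.ω₁ + zD L := by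
    intro k
    unfold gp
    rw [mul_div_assoc', div_eq_iff hN0, hc]
    linear_combination (-((k : ℂ) * L.ω₁ + zD L)) * hε
  have hk : ∀ k : ℕ, (k : ℂ) * L.ω₁ ∈ L.lattice := by
    intro k
    have := int_smul_mem L (k : ℤ) L.ω₁_mem_lattice
    rwa [Int.cast_natCast] at this
  have hnat : ∀ (k : ℕ) (l : ℂ), l ∈ L.lattice → (k : ℂ) * l ∈ L.lattice := by
    intro k l hl
    have := int_smul_mem L (k : ℤ) hl
    rwa [Int.cast_natCast] at this
  have p1 : ∀ k : Fin (N ^ 2 + 1), ((N : ℂ) - ε) * rep (cl L (gp L N ε 0 k)) ∈ L.lattice := by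
    intro k
    have h1 : rep (cl L (gp L N ε 0 k)) - gp L N ε 0 k ∈ L.lattice := by
      rw [← cl_eq, cl_rep]
    have e : ((N : ℂ) - ε) * rep (cl L (gp L N ε 0 k))
        = ((N : ℂ) * (rep (cl L (gp L N ε 0 k)) - gp L N ε 0 k)
          - ε * (rep (cl L (gp L N ε 0 k)) - gp L N ε 0 k)) + (((k : ℕ) : ℂ) * L.ω₁) := by
      linear_combination key1 k
    rw [e]
    exact Submodule.add_mem _ (Submodule.sub_mem _ (hnat _ _ h1) (U.lat _ h1)) (hk _)
  have p2 : ∀ k : Fin (N ^ 2 + 1),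
      ((N : ℂ) + ε) * rep (cl L (gp L N (-ε) (zD L) k)) - zD L ∈ L.lattice := by
    intro k
    have h1 : rep (cl L (gp L N (-ε) (zD L) k)) - gp L N (-ε) (zD L) k ∈ L.lattice := by
      rw [← cl_eq, cl_rep]
    have e : ((N : ℂ) + ε) * rep (cl L (gp L N (-ε) (zD L) k)) - zD L
        = ((N : ℂ) * (rep (cl L (gp L N (-ε) (zD L) k)) - gp L N (-ε) (zD L) k)
          + ε * (rep (cl L (gp L N (-ε) (zD L) k)) - gp L N (-ε) (zD L) k))
          + (((k : ℕ) : ℂ) * L.ω₁) := by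
      linear_combination key2 k
    rw [e]
    exact Submodule.add_mem _ (Submodule.add_mem _ (hnat _ _ h1) (U.lat _ h1)) (hk _)
  have hδ' : (-ε) * L.ω₁ = ((-s : ℤ) : ℂ) * L.ω₂ := by
    push_cast
    linear_combination -hδ
  refine
    { K₁ := Finset.univ.image (fun k : Fin (N ^ 2 + 1) => cl L (gp L N ε 0 k))
      K₂ := Finset.univ.image (fun k : Fin (N ^ 2 + 1) => cl L (gp L N (-ε) (zD L) k))
      h1 := ?_
      h2 := ?_
      m1 := ?_
      m2 := ?_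
      card := ?_ }
  · intro t ht
    obtain ⟨k, -, rfl⟩ := Finset.mem_image.1 ht
    set t := cl L (gp L N ε 0 k)
    have h1 := p1 k
    have e1 : N • t = cl L ((N : ℂ) * rep t) := by rw [cl_nmul, cl_rep]
    rw [e1, cl_eq]
    have e2 : (N : ℂ) * rep t - ε * rep t = ((N : ℂ) - ε) * rep t := by ring
    rw [e2]
    exact h1
  · intro t ht
    obtain ⟨k, -, rfl⟩ := Finset.mem_image.1 ht
    set t := cl L (gp L N (-ε) (zD L) k)
    have h1 := p2 k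
    have e1 : N • t = cl L ((N : ℂ) * rep t) := by rw [cl_nmul, cl_rep]
    rw [e1, tD, ← cl_sub, cl_eq]
    have e2 : (N : ℂ) * rep t - (zD L - ε * rep t) = ((N : ℂ) + ε) * rep t - zD L := by ring
    rw [e2]
    exact h1
  · intro t ht
    obtain ⟨k, -, rfl⟩ := Finset.mem_image.1 ht
    set t := cl L (gp L N ε 0 k)
    have h1 := p1 k
    refine smul_of_dvd (a := N ^ 2 + 1) ⟨2 * N * ((N - 1) * (N + 1)), by unfold mm; ring⟩ ?_
    have e1 : (N ^ 2 + 1) • t = cl L (((N ^ 2 + 1 : ℕ) : ℂ) * rep t) := by rw [cl_nmul, cl_rep]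
    rw [e1, cl_eq_zero]
    have e2 : ((N ^ 2 + 1 : ℕ) : ℂ) * rep t
        = (N : ℂ) * (((N : ℂ) - ε) * rep t) + ε * (((N : ℂ) - ε) * rep t) := by
      rw [hc]
      linear_combination (rep t) * hε
    rw [e2]
    exact Submodule.add_mem _ (hnat _ _ h1) (U.lat _ h1)
  · intro t ht
    obtain ⟨k, -, rfl⟩ := Finset.mem_image.1 ht
    set t := cl L (gp L N (-ε) (zD L) k)
    have h1 := p2 k
    refine smul_of_dvd (a := 2 * (N ^ 2 + 1)) ⟨N * ((N - 1) * (N + 1)), by unfold mm; ring⟩ ?_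
    have e1 : (2 * (N ^ 2 + 1)) • t = cl L (((2 * (N ^ 2 + 1) : ℕ) : ℂ) * rep t) := by
      rw [cl_nmul, cl_rep]
    rw [e1, cl_eq_zero]
    have e2 : ((2 * (N ^ 2 + 1) : ℕ) : ℂ) * rep t
        = (((2 * N : ℕ) : ℂ) * (((N : ℂ) + ε) * rep t - zD L)
          - ((2 : ℕ) : ℂ) * (ε * (((N : ℂ) + ε) * rep t - zD L)))
          + ((N : ℂ) * (2 * zD L) - ε * (2 * zD L)) := by
      push_cast
      linear_combination (2 * rep t) * hε
    rw [e2]
    exact Submodule.add_mem _ (Submodule.sub_mem _ (hnat _ _ h1) (hnat _ _ (U.lat _ h1)))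
      (Submodule.sub_mem _ (hnat _ _ two_zD) (U.lat _ two_zD))
  · rw [Finset.card_image_of_injective _ (gp_inj hs hδ 0),
      Finset.card_image_of_injective _ (gp_inj (by rcases hs with rfl | rfl <;> simp) hδ' (zD L)),
      Finset.card_univ, Fintype.card_fin]
    omega

end Pool.Agent.Y3.VJ
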