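import Mathlib
import Pool.Agent.Y3.VJ.K

/-!
The values of `f z = h (N z) / h z` at torsion points.
-/

open Filter Topology
open H4EP H667R3 Pool.Agent.TH172.ER Pool.Agent.Y442.EC
open scoped OnePoint

noncomputable section

namespace Pool.Agent.Y3.VJ

variable {L : PeriodPair}

/-- the function `f` -/
def ff (L : PeriodPair) (N : ℕ) : ℂ → ℂ := (E0 L).f N 0

theorem cl0 : cl L (0 : ℂ) = 0 := cl_eq_zero.2 (Submodule.zero_mem _)

theorem ff_mero {N : ℕ} (hN : 2 ≤ N) : Meromorphic (ff L N) := (E0 L).f_mero (by omega) 0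

theorem ff_per {N : ℕ} : ∀ z, ∀ l ∈ L.lattice, ff L N (z + l) = ff L N z :=
  fun z l hl => (E0 L).f_per N 0 z hl

theorem ff_ndeg {N : ℕ} (hN : 2 ≤ N) : NDeg (ff L N) := by
  apply (E0 L).ndeg (by omega)
  rw [card_Z, card_W]
  nlinarith

theorem ff_oz {N : ℕ} (hN : 2 ≤ N) (z : ℂ) : oz (ff L N) z
    = ind (E0 L).Z (E0 L).W (N • cl L z) - ind (E0 L).Z (E0 L).W (cl L z) := by
  have h := (E0 L).f_oz (N := N) (by omega) 0 z
  rw [cl0] at h
  have e : (E0 L).of N 0 (cl L z)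
      = ind (E0 L).Z (E0 L).W (N • cl L z) - ind (E0 L).Z (E0 L).W (cl L z) := by
    unfold EF.of
    rw [add_zero]
  rw [← e, ← h]
  rfl

theorem even_smul {N : ℕ} (he : Even N) {t : Torus L} (ht : 2 • t = 0) : N • t = 0 := by
  obtain ⟨n, rfl⟩ := he
  rw [← two_mul, mul_comm, mul_smul, ht, smul_zero]

theorem zero_mem_Z : (0 : Torus L) ∈ (E0 L).Z := (mem_Z L).2 (Or.inl rfl)
theorem D_mem_Z : tD L ∈ (E0 L).Z := (mem_Z L).2 (Or.inr rfl)

theorem not_bad {t : Torus L} : t ∉ (E0 L).bad (cl L 0) ↔ ¬ (2 • t = 0) := by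
  rw [(E0 L).mem_bad, cl0, add_zero, two_tors]

open Classical in
/-- the poles of `f` -/
theorem vo_pole_iff {N : ℕ} (hN : 2 ≤ N) (he : Even N) (t : Torus L) :
    vo (ff L N) 1 0 (rep t) = if t ∈ pre N (E0 L).W then 1 else 0 := by
  have h1 : t ∈ pre N (E0 L).W ↔ N • t ∈ (E0 L).W := mem_pre (by omega) _ _
  rw [vo_top, ff_oz hN, cl_rep]
  by_cases h2 : 2 • t = 0
  · have h3 : N • t = 0 := even_smul he h2
    have h4 : N • t ∉ (E0 L).W := by
      rw [h3]
      exact Finset.disjoint_left.1 (E0 L).disj zero_mem_Z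
    rw [if_neg (fun h => h4 (h1.1 h)), h3, ind_Z (E0 L).disj zero_mem_Z]
    have h5 : ind (E0 L).Z (E0 L).W t ≤ 1 := by
      unfold ind
      split_ifs <;> norm_num
    omega
  · have h3 := h2
    rw [two_tors, not_or] at h3
    rw [ind_none h3.1 h3.2, sub_zero]
    by_cases h4 : N • t ∈ (E0 L).W
    · rw [if_pos (h1.2 h4), ind_W (E0 L).disj h4]
      norm_num
    · rw [if_neg (fun h => h4 (h1.1 h))]
      have h5 : 0 ≤ ind (E0 L).Z (E0 L).W (N • t) := by
        unfold ind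
        rw [if_neg h4]
        split_ifs <;> norm_num
      omega

/-- the degree of `f` -/
theorem sum_pole {N : ℕ} (hN : 2 ≤ N) (he : Even N) :
    ∑ᶠ t : Torus L, vo (ff L N) 1 0 (rep t) = ((2 * N ^ 2 : ℕ) : ℤ) := by
  classical
  rw [finsum_congr (vo_pole_iff hN he)]
  rw [finsum_eq_sum_of_support_subset (s := pre N (E0 L).W)]
  · rw [Finset.sum_ite_mem, Finset.inter_self]
    simp only [Finset.sum_const, smul_eq_mul, nsmul_eq_mul, mul_one]
    rw [card_pre (by omega), card_W]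
    push_cast
    ring
  · intro t ht
    rw [Function.mem_support] at ht
    by_contra hc
    exact ht (if_neg hc)

theorem tv_iff {N : ℕ} (hN : 2 ≤ N) (t : Torus L) (v : OnePoint ℂ) :
    TakesValue (ff L N) (rep t) v ↔ 0 < vo (ff L N) (hom v).1 (hom v).2 (rep t) :=
  takesValue_iff (ff_mero hN) (ff_ndeg hN) (rep t) v

/-- the set of points with value `∞` -/
theorem tv_infty {N : ℕ} (hN : 2 ≤ N) (he : Even N) {t : Torus L} (ht : t ∈ pre N (E0 L).W) :
    TakesValue (ff L N) (rep t) ∞ ∧ mm N • t = 0 := by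
  classical
  constructor
  · rw [tv_iff hN]
    change 0 < vo (ff L N) 1 0 (rep t)
    rw [vo_pole_iff hN he, if_pos ht]
    exact one_pos
  · have h1 : N • t ∈ (E0 L).W := (mem_pre (by omega) _ _).1 ht
    refine smul_of_dvd (a := 2 * N) ⟨(N - 1) * (N + 1) * (N ^ 2 + 1), by unfold mm; ring⟩ ?_
    rw [mul_smul]
    exact (two_tors L).2 (Or.inr h1)

/-- the set of points with value `0` -/
theorem tv_zero {N : ℕ} (hN : 2 ≤ N) {t : Torus L} (ht : t ∈ pre N (E0 L).Z)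
    (ht' : t ∉ (E0 L).Z) :
    TakesValue (ff L N) (rep t) ((0 : ℂ) : OnePoint ℂ) ∧ mm N • t = 0 := by
  have h1 : N • t ∈ (E0 L).Z := (mem_pre (by omega) _ _).1 ht
  constructor
  · rw [tv_iff hN]
    change 0 < vo (ff L N) 0 1 (rep t)
    rw [EF.vo01, ff_oz hN, cl_rep, ind_Z (E0 L).disj h1]
    have h2 : ind (E0 L).Z (E0 L).W t ≤ 0 := by
      unfold ind
      rw [if_neg ht']
      split_ifs <;> norm_num
    omega
  · refine smul_of_dvd (a := 2 * N) ⟨(N - 1) * (N + 1) * (N ^ 2 + 1), by unfold mm; ring⟩ ?_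
    rw [mul_smul]
    exact (two_tors L).2 (Or.inl h1)

section unit

variable {N : ℕ} {ε : ℂ}

theorem cl_N (t : Torus L) : cl L ((N : ℂ) * rep t) = N • t := by rw [cl_nmul, cl_rep]

theorem tv_aux (hN : 2 ≤ N) {t : Torus L} (h2 : ¬ (2 • t = 0))
    (h3 : ¬ (2 • (N • t) = 0)) (hv : (E0 L).h (N * rep t) = ε * (E0 L).h (rep t)) :
    TakesValue (ff L N) (rep t) (ε : OnePoint ℂ) := by
  rw [tv_iff hN]
  change 0 < vo (ff L N) ε 1 (rep t)
  rw [two_tors, not_or] at h3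
  apply (E0 L).vo_val (by omega) 0 (ff_ndeg hN) (not_bad.2 h2) h3.1 h3.2
  rw [add_zero]
  exact hv

theorem tv_K1 (hN : 2 ≤ N) (he : Even N) (U : U4 L ε) (K : KK L N ε) {t : Torus L}
    (ht : t ∈ K.K₁) (ht0 : t ≠ 0) : TakesValue (ff L N) (rep t) (ε : OnePoint ℂ) := by
  have h1 := K.h1 t ht
  have h2 : ¬ (2 • t = 0) := by
    intro h
    apply ht0
    rw [even_smul he h] at h1
    have := U.cl_zero.1 h1.symm
    rwa [cl_rep] at this
  have h3 : ¬ (2 • (N • t) = 0) := by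
    rw [h1, U.cl_two, cl_rep]
    exact h2
  apply tv_aux hN h2 h3
  have h4 : (E0 L).h (N * rep t) = (E0 L).h (ε * rep t) := (E0 L).per' (by rw [cl_N, h1])
  rw [h4, U.h_mul]
  rw [cl_rep]
  exact fun h => h2 ((two_tors L).2 (Or.inr h))

theorem tv_K2 (hN : 2 ≤ N) (he : Even N) (U : U4 L ε) (K : KK L N ε) {t : Torus L}
    (ht : t ∈ K.K₂) (ht0 : t ≠ tD L) : TakesValue (ff L N) (rep t) (ε : OnePoint ℂ) := by
  have h1 := K.h2 t ht
  have h2 : ¬ (2 • t = 0) := by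
    intro h
    apply ht0
    rw [even_smul he h] at h1
    have h3 : cl L (ε * rep t) = tD L := (sub_eq_zero.1 h1.symm).symm
    have := U.cl_D.1 h3
    rwa [cl_rep] at this
  have h3 : ¬ (2 • (N • t) = 0) := by
    rw [h1, smul_sub, two_nsmul (tD L), DD, zero_sub, neg_eq_zero, U.cl_two, cl_rep]
    exact h2
  apply tv_aux hN h2 h3
  have hw : cl L (rep t) ∉ (E0 L).W := by
    rw [cl_rep]
    exact fun h => h2 ((two_tors L).2 (Or.inr h))
  have hw1 : cl L (ε * rep t) ∉ (E0 L).W := fun h => hw (U.W_iff.1 h)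
  have hw2 : cl L (-1 * (ε * rep t)) ∉ (E0 L).W := fun h => hw1 ((U4.neg_one L).W_iff.1 h)
  have h4 : (E0 L).h (N * rep t) = (E0 L).h (-1 * (ε * rep t) + zD L) := by
    apply (E0 L).per'
    rw [cl_N, h1, cl_add, neg_one_mul, cl_neg]
    change _ = _ + tD L
    abel
  rw [h4, h_D hw2, (U4.neg_one L).h_mul hw1, U.h_mul hw]
  ring

theorem disj_K (he : Even N) (U : U4 L ε) (K : KK L N ε) : Disjoint K.K₁ K.K₂ := by
  rw [Finset.disjoint_left]
  intro t h1 h2
  have e1 := K.h1 t h1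
  have e2 := K.h2 t h2
  obtain ⟨n, hn⟩ := he
  have h3 : 2 • cl L (ε * rep t) = tD L := by
    rw [two_nsmul]
    nth_rewrite 1 [← e1]
    rw [e2]
    abel
  have h4 : cl L (ε * ((4 : ℕ) * rep t)) = 0 := by
    have e : ε * (((4 : ℕ) : ℂ) * rep t) = ((2 : ℕ) : ℂ) * (((2 : ℕ) : ℂ) * (ε * rep t)) := by
      push_cast
      ring
    rw [e, cl_nmul, cl_nmul, h3, two_nsmul, DD]
  have h5 : 4 • t = 0 := by
    have := U.cl_zero.1 h4
    rwa [cl_nmul, cl_rep] at this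
  have h6 : 2 • (N • t) = tD L := by rw [e1, h3]
  have h7 : 2 • (N • t) = n • (4 • t) := by
    rw [hn, ← mul_smul, ← mul_smul]
    congr 1
    ring
  rw [h7, h5, smul_zero] at h6
  exact D0 L h6.symm

end unit

/-- all the points with value `ε` -/
theorem exists_unit_set {N : ℕ} {ε : ℂ} (hN : 2 ≤ N) (he : Even N) (U : U4 L ε) (K : KK L N ε) :
    ∃ S : Finset (Torus L), 2 * N ^ 2 ≤ S.card ∧ ∀ t ∈ S,
      mm N • t = 0 ∧ TakesValue (ff L N) (rep t) (ε : OnePoint ℂ) := by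
  classical
  refine ⟨(K.K₁.erase 0) ∪ (K.K₂.erase (tD L)), ?_, ?_⟩
  · rw [Finset.card_union_of_disjoint]
    · have h1 := Finset.pred_card_le_card_erase (s := K.K₁) (a := (0 : Torus L))
      have h2 := Finset.pred_card_le_card_erase (s := K.K₂) (a := tD L)
      have := K.card
      omega
    · exact (disj_K he U K).mono (Finset.erase_subset _ _) (Finset.erase_subset _ _)
  · intro t ht
    rw [Finset.mem_union, Finset.mem_erase, Finset.mem_erase] at ht
    rcases ht with ⟨h1, h2⟩ | ⟨h1, h2⟩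
    · exact ⟨K.m1 t h2, tv_K1 hN he U K h2 h1⟩
    · exact ⟨K.m2 t h2, tv_K2 hN he U K h2 h1⟩

theorem exists_infty_set {N : ℕ} (hN : 2 ≤ N) (he : Even N) :
    ∃ S : Finset (Torus L), 2 * N ^ 2 ≤ S.card ∧ ∀ t ∈ S,
      mm N • t = 0 ∧ TakesValue (ff L N) (rep t) ∞ := by
  refine ⟨pre N (E0 L).W, ?_, fun t ht => ⟨(tv_infty hN he ht).2, (tv_infty hN he ht).1⟩⟩
  rw [card_pre (by omega), card_W]
  omega

theorem exists_zero_set {N : ℕ} (hN : 2 ≤ N) :
    ∃ S : Finset (Torus L), 2 * N ^ 2 ≤ S.card + 2 ∧ ∀ t ∈ S,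
      mm N • t = 0 ∧ TakesValue (ff L N) (rep t) ((0 : ℂ) : OnePoint ℂ) := by
  classical
  refine ⟨pre N (E0 L).Z \ (E0 L).Z, ?_, fun t ht => ?_⟩
  · have h2 := Finset.le_card_sdiff (E0 L).Z (pre N (E0 L).Z)
    rw [card_pre (by omega), card_Z] at h2
    omega
  · rw [Finset.mem_sdiff] at ht
    exact ⟨(tv_zero hN ht.1 ht.2).2, (tv_zero hN ht.1 ht.2).1⟩

end Pool.Agent.Y3.VJ
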