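import Mathlib
import Pool.Agent.Y3.VJ.V

/-!
The function `f` has no periods; the curve `t ↦ (m t, f t)`.
-/

open Filter Topology
open H4EP H667R3 Pool.Agent.TH172.ER Pool.Agent.Y442.EC
open scoped OnePoint

noncomputable section

namespace Pool.Agent.Y3.VJ

variable {L : PeriodPair}

theorem oz_shift {f : ℂ → ℂ} {s z : ℂ} (h : (fun w => f (w + s)) =ᶠ[𝓝[≠] z] f) :
    oz f (z + s) = oz f z := by
  have h1 : meromorphicOrderAt (fun w => f (w + s)) z = meromorphicOrderAt f (z + s) :=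
    meromorphicOrderAt_comp_add_const_eq_meromorphicOrderAt (f := f)
  rw [oz, oz, ← h1, meromorphicOrderAt_congr h]

theorem ind_le_one (Z W : Finset (Torus L)) (t : Torus L) : ind Z W t ≤ 1 := by
  unfold ind
  split_ifs <;> norm_num

theorem ind_eq_neg {Z W : Finset (Torus L)} {t : Torus L} (h : ind Z W t ≤ -1) : t ∈ W := by
  unfold ind at h
  by_contra hc
  rw [if_neg hc] at h
  split_ifs at h <;> norm_num at h

theorem ev_notMem_W (z : ℂ) : ∀ᶠ w in 𝓝[≠] z, cl L w ∉ (E0 L).W := by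
  have h1 := ((E0 L).mero z).eventually_analyticAt
  filter_upwards [h1] with w hw h2
  have h3 := hw.meromorphicOrderAt_nonneg
  rw [(E0 L).ord, ind_W (E0 L).disj h2] at h3
  have h4 : (0 : ℤ) ≤ -1 := by exact_mod_cast h3
  omega

theorem no_period {N : ℕ} (hN : 2 ≤ N) (he : Even N) {κ : Torus L} (hκ : κ ≠ 0) :
    ¬ ∀ z : ℂ, (fun w => ff L N (w + rep κ)) =ᶠ[𝓝[≠] z] ff L N := by
  intro h
  have hA : (tA L) ∈ (E0 L).W := (mem_W L).2 (Or.inl rfl)
  have h1 := oz_shift (h (zA L))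
  rw [ff_oz hN, ff_oz hN, cl_add, cl_rep] at h1
  change ind _ _ (N • (tA L + κ)) - ind _ _ (tA L + κ) = ind _ _ (N • tA L) - ind _ _ (tA L) at h1
  have h2 : N • tA L = 0 := even_smul he (by rw [two_nsmul, AA])
  rw [h2, ind_Z (E0 L).disj zero_mem_Z, ind_W (E0 L).disj hA] at h1
  have h3 := ind_le_one (E0 L).Z (E0 L).W (N • (tA L + κ))
  have h4 : ind (E0 L).Z (E0 L).W (tA L + κ) ≤ -1 := by omega
  have h5 := ind_eq_neg h4
  rw [mem_W] at h5
  rcases h5 with h5 | h5
  · exact hκ (add_eq_left.1 h5)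
  · have h6 : κ = tD L := by
      have : tA L + (tA L + κ) = κ := by rw [← add_assoc, AA, zero_add]
      rw [← this, h5, AB]
    have h7 : cl L (rep κ) = cl L (zD L) := by rw [cl_rep, h6]; rfl
    -- `f (w + D) = - f w`
    have h8 : ∀ᶠ w in 𝓝[≠] (0:ℂ), False := by
      have hne : ∀ᶠ w in 𝓝[≠] (0:ℂ), ff L N w ≠ 0 :=
        (meromorphicOrderAt_ne_top_iff_eventually_ne_zero (ff_mero hN 0)).1 ((ff_ndeg hN).self 0)
      filter_upwards [h 0, hne, ev_notMem_W (L := L) 0] with w hw hw1 hw2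
      have e1 : ff L N (w + rep κ) = - ff L N w := by
        change (E0 L).h (N * (w + rep κ)) / (E0 L).h (w + rep κ + 0) = - ((E0 L).h (N * w) / (E0 L).h (w + 0))
        rw [add_zero, add_zero]
        have e2 : (E0 L).h (w + rep κ) = - (E0 L).h w := by
          rw [← h_D hw2]
          exact (E0 L).per' (by rw [cl_add, cl_add, h7])
        have e3 : (E0 L).h (N * (w + rep κ)) = (E0 L).h (N * w) := by
          apply (E0 L).per'
          rw [cl_nmul, cl_nmul, cl_add, cl_rep, h6, smul_add,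
            even_smul he (t := tD L) (by rw [two_nsmul, DD]), add_zero]
        rw [e2, e3, div_neg]
      have hw' : ff L N (w + rep κ) = ff L N w := hw
      rw [e1] at hw'
      apply hw1
      linear_combination (-1/2 : ℂ) * hw'
    exact h8.exists.elim fun _ h => h

/-- the curve -/
def CC (L : PeriodPair) {N : ℕ} (hN : 2 ≤ N) (he : Even N) : EllipticCurveOn L where
  m := mm N
  m_pos := mm_pos hN
  c := 0
  f := ff L N
  meromorphic := ff_mero hN
  periodic := ff_per
  birational := birat_of (ff_mero hN) ff_per (mm_pos hN).ne' fun _ hκ => no_period hN he hκ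

theorem CC_sectionDegree {N : ℕ} (hN : 2 ≤ N) (he : Even N) (v : OnePoint ℂ) :
    (CC L hN he).sectionDegree v = 2 * N ^ 2 := by
  have h1 := sum_valueOrder (L := L) (ff_mero hN) ff_per (ff_ndeg hN) v
  rw [sum_pole hN he] at h1
  exact_mod_cast h1

theorem CC_mult {N : ℕ} (hN : 2 ≤ N) (he : Even N) (v : OnePoint ℂ) (S : Finset (Torus L))
    (h : ∀ t ∈ S, mm N • t = 0 ∧ TakesValue (ff L N) (rep t) v) :
    S.card ≤ (CC L hN he).mult (0, v) := by
  have h0 := card_le_nat (N := mm N) (mm_pos hN).ne' 0 S (fun t => TakesValue (ff L N) (rep t) v) h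
  refine h0.trans_eq ?_
  unfold EllipticCurveOn.mult
  congr 1
  have : ∀ t : Torus L, mm N • t = 0 ↔
      (CC L hN he).m • t + (CC L hN he).c = ((0, v) : Surface L).1 := by
    intro t
    change _ ↔ mm N • t + 0 = 0
    rw [add_zero]
  simp only [this]
  rfl

theorem CC_mult_infty {N : ℕ} (hN : 2 ≤ N) (he : Even N) :
    2 * N ^ 2 ≤ (CC L hN he).mult (0, ∞) := by
  obtain ⟨S, h1, h2⟩ := exists_infty_set (L := L) hN he
  exact h1.trans (CC_mult hN he ∞ S h2)

theorem CC_mult_zero {N : ℕ} (hN : 2 ≤ N) (he : Even N) :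
    2 * N ^ 2 ≤ (CC L hN he).mult (0, ((0 : ℂ) : OnePoint ℂ)) + 2 := by
  obtain ⟨S, h1, h2⟩ := exists_zero_set (L := L) hN
  have := CC_mult hN he _ S h2
  omega

theorem CC_mult_unit {N : ℕ} {ε : ℂ} (hN : 2 ≤ N) (he : Even N) (U : U4 L ε) (K : KK L N ε) :
    2 * N ^ 2 ≤ (CC L hN he).mult (0, (ε : OnePoint ℂ)) := by
  obtain ⟨S, h1, h2⟩ := exists_unit_set (L := L) hN he U K
  exact h1.trans (CC_mult hN he _ S h2)

end Pool.Agent.Y3.VJ
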