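import Mathlib
import Pool.Agent.Y3.VJ.B

/-!
The critical values of an elliptic function.
-/

open Filter Topology
open H4EP H667R3 Pool.Agent.TH172.ER Pool.Agent.Y442.EC
open scoped OnePoint

noncomputable section

namespace Pool.Agent.Y3.VJ

variable {L : PeriodPair}

theorem vo_le_of {f : ℂ → ℂ} (hf : Meromorphic f) (hn : NDeg f) {z : ℂ} {b b' : ℂ}
    (h : 0 < valueOrder f z (b : OnePoint ℂ)) (h' : 0 < valueOrder f z (b' : OnePoint ℂ)) :
    b = b' := by
  by_contra hne
  have e : ∀ c : ℂ, (valueOrder f z (c : OnePoint ℂ) : ℤ) = vo f c 1 z :=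
    fun c => valueOrder_eq hf hn z (c : OnePoint ℂ)
  have h1 : 0 < vo f b 1 z := by rw [← e]; exact_mod_cast h
  have h2 : 0 < vo f b' 1 z := by rw [← e]; exact_mod_cast h'
  have h3 := min_oz hf hn z (p := b) (q := 1) (p' := b') (q' := 1) (by
    rw [mul_one, mul_one]; exact sub_ne_zero.2 hne)
  unfold vo at h1 h2
  omega

/-- the critical values -/
def crit (f : ℂ → ℂ) (L : PeriodPair) : Set ℂ :=
  {b | ∃ t : Torus L, 2 ≤ valueOrder f (rep t) (b : OnePoint ℂ)}

theorem crit_finite {f : ℂ → ℂ} (hf : Meromorphic f) (hn : NDeg f)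
    (hper : ∀ z, ∀ l ∈ L.lattice, f (z + l) = f z) (hpole : ∃ z₀, oz f z₀ < 0) :
    (crit f L).Finite := by
  have hdm : Meromorphic (deriv f) := fun z => (hf z).deriv
  have hdp : ∀ z, ∀ l ∈ L.lattice, deriv f (z + l) = deriv f z := by
    intro z l hl
    have h1 : deriv (fun x => f (x + l)) z = deriv f (z + l) := deriv_comp_add_const f l z
    have h2 : (fun x => f (x + l)) = f := funext fun x => hper x l hl
    rw [← h1, h2]
  have htop : ∀ z, meromorphicOrderAt (deriv f) z ≠ ⊤ := by
    intro z hz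
    obtain ⟨z₀, h0⟩ := hpole
    have h1 := meromorphicOrderAt_deriv_eq_sub_one (n := oz f z₀)
      (by exact_mod_cast h0.ne) (oz_eq (hn.self z₀))
    rw [top_all hdm hz z₀] at h1
    exact WithTop.top_ne_coe h1
  have hfin : (Function.support (od (deriv f) : Torus L → ℤ)).Finite := od_finite hdm hdp htop
  have hsub : crit f L ⊆ ⋃ t ∈ Function.support (od (deriv f) : Torus L → ℤ),
      {b : ℂ | 0 < valueOrder f (rep t) (b : OnePoint ℂ)} := by
    rintro b ⟨t, ht⟩
    rw [Set.mem_iUnion₂]
    refine ⟨t, ?_, by rw [Set.mem_ofPred_eq]; omega⟩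
    rw [Function.mem_support]
    -- the order of `f - b`
    set n : ℤ := oz (fun w => f w - b) (rep t) with hn'
    have h1 : meromorphicOrderAt (fun w => f w - b) (rep t) = ((n : ℤ) : WithTop ℤ) := by
      apply oz_eq
      have := hn b 1 (Or.inr one_ne_zero) (rep t)
      rwa [lin_const] at this
    have h2 : (2 : ℤ) ≤ n := by
      have h3 : valueOrder f (rep t) (b : OnePoint ℂ) = n.toNat := rfl
      omega
    have h3 := meromorphicOrderAt_deriv_eq_sub_one (n := n) (by
      have : n ≠ 0 := by omega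
      exact_mod_cast this) h1
    have h4 : deriv (fun w => f w - b) = deriv f := by
      funext w
      exact deriv_sub_const b
    rw [h4] at h3
    have h5 : od (deriv f) t = n - 1 := by
      rw [od, h3, WithTop.untop₀_coe]
    omega
  refine Set.Finite.subset (Set.Finite.biUnion hfin fun t _ => ?_) hsub
  apply Set.Subsingleton.finite
  intro b hb b' hb'
  exact vo_le_of hf hn hb hb'

theorem ff_pole {N : ℕ} (hN : 2 ≤ N) (he : Even N) : ∃ z₀, oz (ff L N) z₀ < 0 := by
  have h1 : 0 < (pre N (E0 L).W).card := by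
    rw [card_pre (by omega), card_W]
    positivity
  obtain ⟨t, ht⟩ := Finset.card_pos.1 h1
  refine ⟨rep t, ?_⟩
  have h2 := vo_pole_iff (L := L) hN he t
  classical
  rw [if_pos ht, vo_top] at h2
  omega

/-- the countable set of exceptional branch points -/
def excep (L : PeriodPair) : Set ℂ :=
  (⋃ N ∈ {N : ℕ | 2 ≤ N ∧ Even N}, crit (ff L N) L)

theorem excep_countable : (excep L).Countable := by
  unfold excep
  refine Set.Countable.biUnion (Set.to_countable _) ?_
  rintro N ⟨hN, he⟩
  exact (crit_finite (ff_mero hN) (ff_ndeg hN) ff_per (ff_pole hN he)).countable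

theorem valueOrder_le_one {N : ℕ} (hN : 2 ≤ N) (he : Even N) {b : ℂ} (hb : b ∉ excep L)
    (t : Torus L) : valueOrder (ff L N) (rep t) (b : OnePoint ℂ) ≤ 1 := by
  by_contra hc
  apply hb
  unfold excep
  rw [Set.mem_iUnion₂]
  exact ⟨N, ⟨hN, he⟩, t, by omega⟩

end Pool.Agent.Y3.VJ
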