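import Mathlib
import Pool.Agent.Y3.VJ.D
import Pool.Agent.Y3.VJ.G

/-!
The curves on `E × B`.
-/

open Filter Topology
open H4EP H667R3 Pool.Agent.TH172.ER Pool.Agent.Y442.EC
open scoped OnePoint

noncomputable section

namespace Pool.Agent.Y3.VJ

variable {L : PeriodPair}

/-- `f + s` -/
def fs (L : PeriodPair) (N : ℕ) (s : ℂ) : ℂ → ℂ := fun z => ff L N z + s

theorem fs_eq (N : ℕ) (s : ℂ) : fs L N s = mob 1 s 0 1 (ff L N) := by
  funext z
  simp [fs, mob]

theorem det1 (s : ℂ) : (1:ℂ) * 1 - s * 0 ≠ 0 := by norm_num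

section

variable {N : ℕ} (hN : 2 ≤ N) (he : Even N) (s : ℂ)

include hN

theorem fs_mero : Meromorphic (fs L N s) := by
  rw [fs_eq]
  exact mob_mero (ff_mero hN) _ _ _ _

theorem fs_ndeg : NDeg (fs L N s) := by
  rw [fs_eq]
  exact mob_ndeg (ff_mero hN) (ff_ndeg hN) (det1 s)

omit hN in
theorem fs_per : ∀ z, ∀ l ∈ L.lattice, fs L N s (z + l) = fs L N s z := by
  intro z l hl
  rw [fs, fs, ff_per z l hl]

theorem fs_vo_infty (z : ℂ) : vo (fs L N s) 1 0 z = vo (ff L N) 1 0 z := by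
  rw [fs_eq]
  have h := vo_mob (ff_mero (L := L) hN) (ff_ndeg hN) (det1 s) 1 0 (Or.inl one_ne_zero) z
  simpa using h

theorem fs_vo (c z : ℂ) : vo (fs L N s) (c + s) 1 z = vo (ff L N) c 1 z := by
  rw [fs_eq]
  have h := vo_mob (ff_mero (L := L) hN) (ff_ndeg hN) (det1 s) c 1 (Or.inr one_ne_zero) z
  simpa using h

theorem fs_valueOrder (b z : ℂ) :
    valueOrder (fs L N s) z (b : OnePoint ℂ) = valueOrder (ff L N) z ((b - s : ℂ) : OnePoint ℂ) := by
  have h1 : (valueOrder (fs L N s) z (b : OnePoint ℂ) : ℤ) = vo (fs L N s) b 1 z :=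
    valueOrder_eq (fs_mero hN s) (fs_ndeg hN s) z _
  have h2 : (valueOrder (ff L N) z ((b - s : ℂ) : OnePoint ℂ) : ℤ) = vo (ff L N) (b - s) 1 z :=
    valueOrder_eq (ff_mero hN) (ff_ndeg hN) z _
  have h3 := fs_vo (L := L) hN s (b - s) z
  rw [sub_add_cancel] at h3
  have h4 : (valueOrder (fs L N s) z (b : OnePoint ℂ) : ℤ)
      = (valueOrder (ff L N) z ((b - s : ℂ) : OnePoint ℂ) : ℤ) := by rw [h1, h2, h3]
  exact_mod_cast h4

theorem fs_tv_infty {t : Torus L} (h : TakesValue (ff L N) (rep t) ∞) :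
    TakesValue (fs L N s) (rep t) ∞ := by
  rw [takesValue_iff (fs_mero hN s) (fs_ndeg hN s)]
  rw [takesValue_iff (ff_mero hN) (ff_ndeg hN)] at h
  change 0 < vo (fs L N s) 1 0 (rep t)
  rw [fs_vo_infty hN]
  exact h

theorem fs_tv {c : ℂ} {t : Torus L} (h : TakesValue (ff L N) (rep t) (c : OnePoint ℂ)) :
    TakesValue (fs L N s) (rep t) ((s + c : ℂ) : OnePoint ℂ) := by
  rw [takesValue_iff (fs_mero hN s) (fs_ndeg hN s)]
  rw [takesValue_iff (ff_mero hN) (ff_ndeg hN)] at h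
  change 0 < vo (fs L N s) (s + c) 1 (rep t)
  rw [add_comm, fs_vo hN]
  exact h

include he

theorem fs_sum (v : OnePoint ℂ) :
    ∑ᶠ t : Torus L, valueOrder (fs L N s) (rep t) v = 2 * N ^ 2 := by
  have h1 := sum_valueOrder (L := L) (fs_mero hN s) (fs_per s) (fs_ndeg hN s) v
  rw [fs_eq, sum_mob (ff_mero hN) ff_per (ff_ndeg hN) (det1 s), sum_pole hN he] at h1
  rw [fs_eq]
  exact_mod_cast h1

theorem fs_no_period {κ : Torus L} (hκ : κ ≠ 0) :
    ¬ ∀ z : ℂ, (fun w => fs L N s (w + rep κ)) =ᶠ[𝓝[≠] z] fs L N s := by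
  intro h
  refine no_period hN he hκ fun z => ?_
  filter_upwards [h z] with w hw
  exact add_right_cancel hw

/-- the curve on `E × ℙ¹` -/
def CE : EllipticCurveOn L where
  m := mm N
  m_pos := mm_pos hN
  c := 0
  f := fs L N s
  meromorphic := fs_mero hN s
  periodic := fs_per s
  birational := birat_of (fs_mero hN s) (fs_per s) (mm_pos hN).ne' fun _ hκ =>
    fs_no_period hN he s hκ

end

/-- the bad values of `s` -/
def badS (L : PeriodPair) (B : Cover) (U : Finset ℂ) : Set ℂ :=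
  ⋃ y ∈ (B.ram : Set B.Pt), {s : ℂ | ∃ b : ℂ, B.β y = (b : OnePoint ℂ) ∧
    (b - s ∈ excep L ∨ b - s ∈ ((insert 0 U : Set ℂ)))}

theorem badS_countable (B : Cover) (U : Finset ℂ) : (badS L B U).Countable := by
  unfold badS
  refine Set.Countable.biUnion (Finset.countable_toSet _) ?_
  intro y _
  by_cases h : ∃ b : ℂ, B.β y = (b : OnePoint ℂ)
  · obtain ⟨b, hb⟩ := h
    have h1 : {s : ℂ | ∃ b : ℂ, B.β y = (b : OnePoint ℂ) ∧
        (b - s ∈ excep L ∨ b - s ∈ ((insert 0 U : Set ℂ)))}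
        ⊆ (fun x => b - x) '' (excep L ∪ (insert 0 U : Set ℂ)) := by
      rintro s ⟨b', hb', h2⟩
      have e : b' = b := OnePoint.coe_injective (hb'.symm.trans hb)
      subst e
      exact ⟨b' - s, h2, by ring⟩
    refine Set.Countable.mono h1 (Set.Countable.image ?_ _)
    exact excep_countable.union ((Finset.countable_toSet U).insert 0)
  · refine Set.Countable.mono ?_ Set.countable_empty
    rintro s ⟨b, hb, -⟩
    exact h ⟨b, hb⟩

section

variable {B : Cover} {U : Finset ℂ} {s : ℂ} (hs : s ∉ badS L B U)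

include hs

theorem good_val {N : ℕ} (hN : 2 ≤ N) (he : Even N) (t : Torus L) (y : B.Pt) (hy : 1 < B.e y) :
    valueOrder (fs L N s) (rep t) (B.β y) ≤ 1 := by
  have hne : B.β y ≠ ∞ := fun h => by
    have := B.unramified_infty y h
    omega
  obtain ⟨b, hb⟩ := OnePoint.ne_infty_iff_exists.1 hne
  rw [← hb, fs_valueOrder hN]
  apply valueOrder_le_one hN he
  intro hbad
  apply hs
  unfold badS
  rw [Set.mem_iUnion₂]
  exact ⟨y, (B.mem_ram y).2 hy, b, hb.symm, Or.inl hbad⟩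

theorem good_unram {c : ℂ} (hc : c ∈ ((insert 0 U : Set ℂ))) (y : B.Pt)
    (hy : B.β y = ((s + c : ℂ) : OnePoint ℂ)) : B.e y = 1 := by
  by_contra hne
  have h1 : 1 < B.e y := lt_of_le_of_ne (B.e_pos y) (Ne.symm hne)
  apply hs
  unfold badS
  rw [Set.mem_iUnion₂]
  exact ⟨y, (B.mem_ram y).2 h1, s + c, hy, Or.inr (by rwa [add_sub_cancel_left])⟩

/-- the curve on `E × B` -/
def CB {N : ℕ} (hN : 2 ≤ N) (he : Even N) : CurveOn L B where
  toEllipticCurveOn := CE hN he s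
  degree_pos := by
    have h : (CE (L := L) hN he s).sectionDegree ∞ = 2 * N ^ 2 := fs_sum hN he s ∞
    rw [h]
    positivity
  transversal := fun t y hy => good_val hs hN he t y hy

theorem genus_CB {N : ℕ} (hN : 2 ≤ N) (he : Even N) :
    (CB hs hN he).genus = 1 + (B.genus - 1 + B.k) * (2 * (N : ℚ) ^ 2) := by
  classical
  unfold CurveOn.genus
  have hfin : ∀ y : B.Pt, (Function.support
      (fun t : Torus L => valueOrder (fs L N s) (rep t) (B.β y))).Finite := by
    intro y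
    refine (vo_finite (fs_mero hN s) (fs_per s) (fs_ndeg hN s) _ _ (hom_ne (B.β y))).subset ?_
    intro t ht h
    apply ht
    have h1 : (valueOrder (fs L N s) (rep t) (B.β y) : ℤ) = 0 :=
      (valueOrder_eq (fs_mero hN s) (fs_ndeg hN s) (rep t) (B.β y)).trans h
    exact_mod_cast h1
  have hterm : ∀ y ∈ B.ram, ∀ t : Torus L,
      ((B.e y : ℚ) - (Nat.gcd (B.e y) (valueOrder (fs L N s) (rep t) (B.β y)) : ℚ))
      = ((B.e y : ℚ) - 1) * (valueOrder (fs L N s) (rep t) (B.β y) : ℚ) := by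
    intro y hy t
    have h1 := good_val hs hN he t y ((B.mem_ram y).1 hy)
    interval_cases h2 : valueOrder (fs L N s) (rep t) (B.β y)
    · simp
    · simp
  have hcomm : ∑ᶠ t : Torus L, ∑ y ∈ B.ram,
      ((B.e y : ℚ) - (Nat.gcd (B.e y) (valueOrder (fs L N s) (rep t) (B.β y)) : ℚ))
      = ∑ y ∈ B.ram, ((B.e y : ℚ) - 1) * (2 * (N : ℚ) ^ 2) := by
    have e1 : ∀ t : Torus L, ∑ y ∈ B.ram,
        ((B.e y : ℚ) - (Nat.gcd (B.e y) (valueOrder (fs L N s) (rep t) (B.β y)) : ℚ))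
        = ∑ y ∈ B.ram, ((B.e y : ℚ) - 1) * (valueOrder (fs L N s) (rep t) (B.β y) : ℚ) :=
      fun t => Finset.sum_congr rfl fun y hy => hterm y hy t
    rw [finsum_congr e1, finsum_sum_comm]
    · refine Finset.sum_congr rfl fun y _ => ?_
      have h2 := fs_sum (L := L) hN he s (B.β y)
      have h3 : ((∑ᶠ t : Torus L, valueOrder (fs L N s) (rep t) (B.β y) : ℕ) : ℚ)
          = ∑ᶠ t : Torus L, (valueOrder (fs L N s) (rep t) (B.β y) : ℚ) :=
        AddMonoidHom.map_finsum (Nat.castAddMonoidHom ℚ) (hfin y)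
      rw [← mul_finsum _ _, ← h3, h2]
      push_cast
      ring
    · intro y _
      refine (hfin y).subset ?_
      intro t ht h
      apply ht
      have : valueOrder (fs L N s) (rep t) (B.β y) = 0 := h
      simp [this]
  change 1 + (∑ᶠ t : Torus L, ∑ y ∈ B.ram,
      ((B.e y : ℚ) - (Nat.gcd (B.e y) (valueOrder (fs L N s) (rep t) (B.β y)) : ℚ))) / 2 = _
  rw [hcomm, ← Finset.sum_mul]
  unfold Cover.genus
  ring

theorem sectionDegree_CB {N : ℕ} (hN : 2 ≤ N) (he : Even N) :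
    (CB hs hN he).sectionDegree ∞ = 2 * N ^ 2 := fs_sum hN he s ∞

theorem mult_CB {N : ℕ} (hN : 2 ≤ N) (he : Even N) (y : B.Pt) (hy : B.e y = 1)
    (T : Finset (Torus L)) (hT : ∀ t ∈ T, mm N • t = 0 ∧ TakesValue (fs L N s) (rep t) (B.β y)) :
    T.card ≤ (CB hs hN he).mult ((0 : Torus L), y) := by
  classical
  unfold CurveOn.mult
  have hm0 : mm N ≠ 0 := (mm_pos hN).ne'
  have hfin : Finite {t : Torus L // (CB hs hN he).m • t + (CB hs hN he).c = ((0 : Torus L), y).1} := by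
    apply Set.Finite.to_subtype
    refine (tors_finite L (mm N) hm0).subset ?_
    intro t ht
    have h1 : mm N • t + 0 = 0 := ht
    rwa [add_zero] at h1
  have := Fintype.ofFinite
    {t : Torus L // (CB hs hN he).m • t + (CB hs hN he).c = ((0 : Torus L), y).1}
  rw [finsum_eq_sum_of_fintype]
  set F : {t : Torus L // (CB hs hN he).m • t + (CB hs hN he).c = ((0 : Torus L), y).1} → ℕ :=
    fun t => min (B.e y) (valueOrder (fs L N s) (rep t.1) (B.β y)) with hF
  have hmem : ∀ t ∈ T, (CB hs hN he).m • t + (CB hs hN he).c = ((0 : Torus L), y).1 := by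
    intro t ht
    change mm N • t + 0 = 0
    rw [add_zero]
    exact (hT t ht).1
  have h1 : ∀ t : T, 1 ≤ F ⟨t.1, hmem t.1 t.2⟩ := by
    intro t
    have h2 := (hT t.1 t.2).2
    rw [takesValue_iff (fs_mero hN s) (fs_ndeg hN s),
      ← valueOrder_eq (fs_mero hN s) (fs_ndeg hN s)] at h2
    simp only [hF, hy]
    have h3 : 0 < valueOrder (fs L N s) (rep t.1) (B.β y) := by exact_mod_cast h2
    omega
  calc T.card = ∑ _t : T, 1 := by simp
    _ ≤ ∑ t : T, F ⟨t.1, hmem t.1 t.2⟩ := Finset.sum_le_sum fun t _ => h1 t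
    _ = ∑ t ∈ (Finset.univ : Finset T).map ⟨fun t : T => (⟨t.1, hmem t.1 t.2⟩ :
          {t : Torus L // (CB hs hN he).m • t + (CB hs hN he).c = ((0 : Torus L), y).1}),
          fun a b hab => Subtype.ext (congrArg (fun x => x.1) hab)⟩, F t := by
        rw [Finset.sum_map]
        rfl
    _ ≤ ∑ t, F t := Finset.sum_le_sum_of_subset (Finset.subset_univ _)

end

end Pool.Agent.Y3.VJ
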