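import Mathlib
import Pool.Agent.Y3.VJ.M

/-!
The canonical degree of the curves.
-/

open Filter Topology
open H4EP H667R3 Pool.Agent.TH172.ER Pool.Agent.Y442.EC
open scoped OnePoint

noncomputable section

namespace Pool.Agent.Y3.VJ

variable {L : PeriodPair}

theorem card_fibre {B : Cover} {v : OnePoint ℂ} (h : ∀ y, B.β y = v → B.e y = 1) :
    (B.fibre v).card = B.k := by
  rw [← B.sum_e v, Finset.card_eq_sum_ones]
  exact Finset.sum_congr rfl fun y hy => (h y ((B.mem_fibre v y).1 hy)).symm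

/-- the units that can be used -/
structure Good (L : PeriodPair) (U : Finset ℂ) : Prop where
  ne : ∀ ε ∈ U, ε ≠ 0
  unit : ∀ ε ∈ U, U4 L ε
  sol : ∀ ε ∈ U, ∀ N, 2 ≤ N → Nonempty (KK L N ε)

section

variable {B : Cover} {U : Finset ℂ} {s : ℂ} (hs : s ∉ badS L B U)

include hs

theorem mult_infty {N : ℕ} (hN : 2 ≤ N) (he : Even N) {y : B.Pt} (hy : B.β y = ∞) :
    2 * N ^ 2 ≤ (CB hs hN he).mult ((0 : Torus L), y) := by
  obtain ⟨T, h1, h2⟩ := exists_infty_set (L := L) hN he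
  refine h1.trans (mult_CB hs hN he y (B.unramified_infty y hy) T fun t ht => ⟨(h2 t ht).1, ?_⟩)
  rw [hy]
  exact fs_tv_infty hN s (h2 t ht).2

theorem mult_zero {N : ℕ} (hN : 2 ≤ N) (he : Even N) {y : B.Pt}
    (hy : B.β y = ((s + 0 : ℂ) : OnePoint ℂ)) :
    2 * N ^ 2 ≤ (CB hs hN he).mult ((0 : Torus L), y) + 2 := by
  obtain ⟨T, h1, h2⟩ := exists_zero_set (L := L) hN
  have h3 := mult_CB hs hN he y (good_unram hs (Set.mem_insert _ _) y hy) T
    fun t ht => ⟨(h2 t ht).1, by rw [hy]; exact fs_tv hN s (h2 t ht).2⟩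
  omega

theorem mult_unit {N : ℕ} (hN : 2 ≤ N) (he : Even N) (hU : Good L U) {ε : ℂ} (hε : ε ∈ U)
    {y : B.Pt} (hy : B.β y = ((s + ε : ℂ) : OnePoint ℂ)) :
    2 * N ^ 2 ≤ (CB hs hN he).mult ((0 : Torus L), y) := by
  obtain ⟨K⟩ := hU.sol ε hε N hN
  obtain ⟨T, h1, h2⟩ := exists_unit_set (L := L) hN he (hU.unit ε hε) K
  refine h1.trans (mult_CB hs hN he y (good_unram hs (Set.mem_insert_of_mem _ hε) y hy) T
    fun t ht => ⟨(h2 t ht).1, ?_⟩)
  rw [hy]
  exact fs_tv hN s (h2 t ht).2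

theorem canonicalDegree_CB {N : ℕ} (hN : 2 ≤ N) (he : Even N) (hU : Good L U)
    (S : Finset (Torus L × B.Pt)) (hS1 : ∀ y ∈ B.fibre ∞, ((0 : Torus L), y) ∈ S)
    (hS2 : ∀ c ∈ insert 0 U, ∀ y ∈ B.fibre ((s + c : ℂ) : OnePoint ℂ), ((0 : Torus L), y) ∈ S) :
    (2 * B.genus - 2 + (U.card + 2) * B.k) * (2 * (N : ℚ) ^ 2) - 2 * B.k
      ≤ (CB hs hN he).canonicalDegree S := by
  classical
  have h0U : (0 : ℂ) ∉ U := fun h => hU.ne 0 h rfl
  set C := CB hs hN he with hC
  set μ : B.Pt → ℚ := fun y => (C.mult ((0 : Torus L), y) : ℚ) with hμ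
  have hμ0 : ∀ y, 0 ≤ μ y := fun y => Nat.cast_nonneg _
  set W : Finset B.Pt := (insert 0 U).biUnion fun c => B.fibre ((s + c : ℂ) : OnePoint ℂ) with hW
  have hdisj : Disjoint (B.fibre ∞) W := by
    rw [Finset.disjoint_left]
    intro y h1 h2
    rw [hW, Finset.mem_biUnion] at h2
    obtain ⟨c, -, h3⟩ := h2
    rw [B.mem_fibre] at h1 h3
    rw [h1] at h3
    exact OnePoint.infty_ne_coe _ h3
  have hpair : ((insert 0 U : Finset ℂ) : Set ℂ).PairwiseDisjoint
      (fun c => B.fibre ((s + c : ℂ) : OnePoint ℂ)) := by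
    intro c _ c' _ hne
    change Disjoint _ _
    rw [Finset.disjoint_left]
    intro y h1 h2
    rw [B.mem_fibre] at h1 h2
    rw [h1] at h2
    exact hne (add_left_cancel (OnePoint.coe_injective h2))
  -- the total multiplicity
  have hsum : ∑ y ∈ B.fibre ∞, μ y + ∑ c ∈ insert 0 U,
      ∑ y ∈ B.fibre ((s + c : ℂ) : OnePoint ℂ), μ y ≤ ∑ p ∈ S, (C.mult p : ℚ) := by
    rw [← Finset.sum_biUnion hpair, ← Finset.sum_union hdisj]
    have h1 : ∑ y ∈ B.fibre ∞ ∪ W, μ y
        = ∑ p ∈ (B.fibre ∞ ∪ W).map ⟨fun y => ((0 : Torus L), y), fun a b h => (Prod.ext_iff.1 h).2⟩,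
          (C.mult p : ℚ) := by
      rw [Finset.sum_map]
      rfl
    rw [h1]
    apply Finset.sum_le_sum_of_subset_of_nonneg
    · intro p hp
      rw [Finset.mem_map] at hp
      obtain ⟨y, hy, rfl⟩ := hp
      rw [Finset.mem_union] at hy
      rcases hy with hy | hy
      · exact hS1 y hy
      · rw [hW, Finset.mem_biUnion] at hy
        obtain ⟨c, hc, hy⟩ := hy
        exact hS2 c hc y hy
    · intro p _ _
      exact Nat.cast_nonneg _
  have hk1 : ((B.fibre ∞).card : ℚ) = B.k := by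
    rw [card_fibre fun y hy => B.unramified_infty y hy]
  have hk2 : ∀ c ∈ insert 0 U, ((B.fibre ((s + c : ℂ) : OnePoint ℂ)).card : ℚ) = B.k := by
    intro c hc
    rw [card_fibre fun y hy => good_unram hs (by
      rw [← Finset.coe_insert]
      exact hc) y hy]
  have b1 : (B.k : ℚ) * (2 * (N : ℚ) ^ 2) ≤ ∑ y ∈ B.fibre ∞, μ y := by
    rw [← hk1, ← nsmul_eq_mul]
    refine Finset.card_nsmul_le_sum _ _ _ fun y hy => ?_
    have := mult_infty hs hN he ((B.mem_fibre _ _).1 hy)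
    have h2 : ((2 * N ^ 2 : ℕ) : ℚ) ≤ μ y := Nat.cast_le.2 this
    push_cast at h2
    exact h2
  have b2 : (B.k : ℚ) * (2 * (N : ℚ) ^ 2) - 2 * B.k
      ≤ ∑ y ∈ B.fibre ((s + 0 : ℂ) : OnePoint ℂ), μ y := by
    have e : (B.k : ℚ) * (2 * (N : ℚ) ^ 2) - 2 * B.k
        = (B.fibre ((s + 0 : ℂ) : OnePoint ℂ)).card • (2 * (N : ℚ) ^ 2 - 2) := by
      rw [nsmul_eq_mul, hk2 0 (Finset.mem_insert_self _ _)]
      ring
    rw [e]
    refine Finset.card_nsmul_le_sum _ _ _ fun y hy => ?_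
    have := mult_zero hs hN he ((B.mem_fibre _ _).1 hy)
    have h2 : ((2 * N ^ 2 : ℕ) : ℚ) ≤ μ y + 2 := by
      have h3 : ((2 * N ^ 2 : ℕ) : ℚ) ≤ ((C.mult ((0 : Torus L), y) + 2 : ℕ) : ℚ) :=
        Nat.cast_le.2 this
      rw [Nat.cast_add] at h3
      exact h3
    push_cast at h2
    linarith
  have b3 : ∀ ε ∈ U, (B.k : ℚ) * (2 * (N : ℚ) ^ 2)
      ≤ ∑ y ∈ B.fibre ((s + ε : ℂ) : OnePoint ℂ), μ y := by
    intro ε hε
    rw [← hk2 ε (Finset.mem_insert_of_mem hε), ← nsmul_eq_mul]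
    refine Finset.card_nsmul_le_sum _ _ _ fun y hy => ?_
    have := mult_unit hs hN he hU hε ((B.mem_fibre _ _).1 hy)
    have h2 : ((2 * N ^ 2 : ℕ) : ℚ) ≤ μ y := Nat.cast_le.2 this
    push_cast at h2
    exact h2
  have b4 : (U.card : ℚ) * ((B.k : ℚ) * (2 * (N : ℚ) ^ 2))
      ≤ ∑ ε ∈ U, ∑ y ∈ B.fibre ((s + ε : ℂ) : OnePoint ℂ), μ y := by
    rw [← nsmul_eq_mul]
    exact Finset.card_nsmul_le_sum _ _ _ b3
  rw [Finset.sum_insert h0U] at hsum
  have hdeg : (C.sectionDegree ∞ : ℚ) = 2 * (N : ℚ) ^ 2 := by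
    rw [hC, sectionDegree_CB]
    push_cast
    ring
  unfold CurveOn.canonicalDegree
  rw [hdeg]
  nlinarith

end

theorem good_pm : Good L {1, -1} where
  ne := by
    intro ε hε
    simp only [Finset.mem_insert, Finset.mem_singleton] at hε
    rcases hε with rfl | rfl <;> norm_num
  unit := by
    intro ε hε
    simp only [Finset.mem_insert, Finset.mem_singleton] at hε
    rcases hε with rfl | rfl
    · exact U4.one L
    · exact U4.neg_one L
  sol := by
    intro ε hε N hN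
    simp only [Finset.mem_insert, Finset.mem_singleton] at hε
    rcases hε with rfl | rfl
    · exact ⟨KK_one hN⟩
    · exact ⟨KK_neg hN⟩

theorem good_I (h : L.ω₂ = Complex.I * L.ω₁) : Good L {1, -1, Complex.I, -Complex.I} where
  ne := by
    intro ε hε
    simp only [Finset.mem_insert, Finset.mem_singleton] at hε
    rcases hε with rfl | rfl | rfl | rfl
    · norm_num
    · norm_num
    · exact Complex.I_ne_zero
    · exact neg_ne_zero.2 Complex.I_ne_zero
  unit := by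
    intro ε hε
    simp only [Finset.mem_insert, Finset.mem_singleton] at hε
    rcases hε with rfl | rfl | rfl | rfl
    · exact U4.one L
    · exact U4.neg_one L
    · exact U4.I L h
    · have := (U4.neg_one L).mul L (U4.I L h)
      rwa [neg_one_mul] at this
  sol := by
    intro ε hε N hN
    simp only [Finset.mem_insert, Finset.mem_singleton] at hε
    rcases hε with rfl | rfl | rfl | rfl
    · exact ⟨KK_one hN⟩
    · exact ⟨KK_neg hN⟩
    · exact ⟨KK_I Complex.I_sq (U4.I L h) (s := 1) (Or.inl rfl) (by rw [h]; push_cast; ring)⟩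
    · have hU := (U4.neg_one L).mul L (U4.I L h)
      rw [neg_one_mul] at hU
      exact ⟨KK_I (by rw [neg_sq, Complex.I_sq]) hU (s := -1) (Or.inr rfl)
        (by rw [h]; push_cast; ring)⟩

theorem card_pm : ({1, -1} : Finset ℂ).card = 2 := by
  rw [Finset.card_pair]
  norm_num

theorem card_I : ({1, -1, Complex.I, -Complex.I} : Finset ℂ).card = 4 := by
  have h1 : (1 : ℂ) ≠ -1 := by norm_num
  have h2 : (1 : ℂ) ≠ Complex.I := by
    intro h
    have := congrArg Complex.re h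
    simp at this
  have h3 : (1 : ℂ) ≠ -Complex.I := by
    intro h
    have := congrArg Complex.re h
    simp at this
  have h4 : (-1 : ℂ) ≠ Complex.I := by
    intro h
    have := congrArg Complex.re h
    simp at this
  have h5 : (-1 : ℂ) ≠ -Complex.I := by
    intro h
    exact h2 (neg_injective h)
  have h6 : Complex.I ≠ -Complex.I := by
    intro h
    have := congrArg Complex.im h
    norm_num at this
  rw [Finset.card_insert_of_notMem, Finset.card_insert_of_notMem, Finset.card_pair h6]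
  · simp [h4, h5]
  · simp [h1, h2, h3]

end Pool.Agent.Y3.VJ
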